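import Mathlib

set_option autoImplicit false
open Pointwise

namespace Pool.Agent.H5QP

section Len

variable {G : Type*} [Group G]

/-- Word length with respect to a set, as in the frozen statement. -/
noncomputable def wlen (S : Set G) (g : G) : ℕ := sInf {n : ℕ | g ∈ (S ∪ S⁻¹) ^ n}

lemma symm_pow (S : Set G) (n : ℕ) : ((S ∪ S⁻¹) ^ n)⁻¹ = (S ∪ S⁻¹) ^ n := by
  rw [← inv_pow]
  congr 1
  ext x
  simp [or_comm]

lemma exists_mem_pow {S : Set G} (hS : Subgroup.closure S = ⊤) (g : G) :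
    ∃ n : ℕ, g ∈ (S ∪ S⁻¹) ^ n := by
  have hg : g ∈ Subgroup.closure S := by rw [hS]; trivial
  induction hg using Subgroup.closure_induction with
  | mem x hx => exact ⟨1, by simpa using Or.inl hx⟩
  | one => exact ⟨0, by simp⟩
  | mul x y _ _ hx hy =>
    obtain ⟨n, hn⟩ := hx
    obtain ⟨m, hm⟩ := hy
    exact ⟨n + m, by rw [pow_add]; exact Set.mul_mem_mul hn hm⟩
  | inv x _ hx =>
    obtain ⟨n, hn⟩ := hx
    refine ⟨n, ?_⟩
    rw [← symm_pow]
    simpa using hn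

lemma wlen_le {S : Set G} {g : G} {n : ℕ} (h : g ∈ (S ∪ S⁻¹) ^ n) : wlen S g ≤ n :=
  Nat.sInf_le h

lemma mem_pow_wlen {S : Set G} (hS : Subgroup.closure S = ⊤) (g : G) :
    g ∈ (S ∪ S⁻¹) ^ (wlen S g) :=
  Nat.sInf_mem (s := {n : ℕ | g ∈ (S ∪ S⁻¹) ^ n}) (exists_mem_pow hS g)

lemma wlen_one (S : Set G) : wlen S (1 : G) = 0 := by
  have : wlen S (1 : G) ≤ 0 := wlen_le (by simp)
  omega

lemma wlen_mul {S : Set G} (hS : Subgroup.closure S = ⊤) (g h : G) :
    wlen S (g * h) ≤ wlen S g + wlen S h := by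
  apply wlen_le
  rw [pow_add]
  exact Set.mul_mem_mul (mem_pow_wlen hS g) (mem_pow_wlen hS h)

lemma wlen_inv_le {S : Set G} (hS : Subgroup.closure S = ⊤) (g : G) :
    wlen S g⁻¹ ≤ wlen S g := by
  apply wlen_le
  rw [← symm_pow]
  simpa using mem_pow_wlen hS g

lemma wlen_inv {S : Set G} (hS : Subgroup.closure S = ⊤) (g : G) :
    wlen S g⁻¹ = wlen S g := by
  apply le_antisymm (wlen_inv_le hS g)
  simpa using wlen_inv_le hS g⁻¹

lemma wlen_mem {S : Set G} {g : G} (h : g ∈ S) : wlen S g ≤ 1 :=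
  wlen_le (by simpa using Or.inl h)

end Len

/-- A symmetric subadditive length function. -/
structure IsLen {G : Type*} [Group G] (L : G → ℝ) : Prop where
  one : L 1 = 0
  inv : ∀ g, L g⁻¹ = L g
  mul : ∀ g h, L (g * h) ≤ L g + L h

/-- The four point condition. -/
def FourPt {G : Type*} [Group G] (L : G → ℝ) (δ : ℝ) : Prop :=
  ∀ x y z w : G, L (x⁻¹ * z) + L (y⁻¹ * w) ≤
    max (L (x⁻¹ * y) + L (z⁻¹ * w)) (L (y⁻¹ * z) + L (x⁻¹ * w)) + 2 * δ

lemma isLen_wlen {G : Type*} [Group G] {S : Set G} (hS : Subgroup.closure S = ⊤) :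
    IsLen (fun g => (wlen S g : ℝ)) where
  one := by simp [wlen_one]
  inv g := by simp [wlen_inv hS]
  mul g h := by exact_mod_cast wlen_mul hS g h

namespace IsLen

variable {G : Type*} [Group G] {L : G → ℝ}

lemma nonneg (h : IsLen L) (g : G) : 0 ≤ L g := by
  have h1 := h.mul g g⁻¹
  rw [mul_inv_cancel, h.one, h.inv] at h1
  linarith

lemma pow_le (h : IsLen L) (g : G) (n : ℕ) : L (g ^ n) ≤ n * L g := by
  induction n with
  | zero => simp [h.one]
  | succ n ih =>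
    rw [pow_succ]
    have := h.mul (g ^ n) g
    push_cast
    linarith

lemma le_mul_right (h : IsLen L) (a b : G) : L a ≤ L (a * b) + L b := by
  have := h.mul (a * b) b⁻¹
  rw [mul_inv_cancel_right, h.inv] at this
  exact this

lemma le_mul_left (h : IsLen L) (a b : G) : L b ≤ L (a * b) + L a := by
  have := h.mul a⁻¹ (a * b)
  rw [inv_mul_cancel_left, h.inv] at this
  linarith

lemma comm_inv (h : IsLen L) (a b : G) : L (a⁻¹ * b) = L (b⁻¹ * a) := by
  rw [← h.inv (a⁻¹ * b)]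
  simp only [mul_inv_rev, inv_inv]

/-- linear growth is not compatible with slow doubling -/
lemma exists_doubling (_h : IsLen L) {s : G} {c : ℝ} (hc : 0 < c)
    (hs : ∀ n : ℕ, c * n ≤ L (s ^ n)) (B : ℝ) : ∃ p : ℕ, 0 < p ∧ L (s ^ p) + B ≤ L (s ^ (2 * p)) := by
  by_contra hcon
  push Not at hcon
  have key : ∀ k : ℕ, L (s ^ (2 ^ k)) ≤ L s + k * B := by
    intro k
    induction k with
    | zero => simp
    | succ k ih =>
      have := hcon (2 ^ k) (by positivity)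
      rw [← pow_succ'] at this
      push_cast
      linarith
  -- growth of exponentials
  have h2 : ∀ k : ℕ, c * (2 : ℝ) ^ k ≤ L s + k * B := by
    intro k
    have := hs (2 ^ k)
    push_cast at this
    exact this.trans (key k)
  have ht : Filter.Tendsto (fun k : ℕ => (k : ℝ) / (2 : ℝ) ^ k) Filter.atTop (nhds 0) := by
    have := tendsto_pow_const_div_const_pow_of_one_lt 1 (one_lt_two : (1 : ℝ) < 2)
    simpa using this
  have ht2 : Filter.Tendsto (fun k : ℕ => (1 : ℝ) / (2 : ℝ) ^ k) Filter.atTop (nhds 0) := by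
    have := tendsto_pow_const_div_const_pow_of_one_lt 0 (one_lt_two : (1 : ℝ) < 2)
    simpa using this
  have ht3 : Filter.Tendsto (fun k : ℕ => L s * ((1 : ℝ) / (2 : ℝ) ^ k) + B * ((k : ℝ) / (2 : ℝ) ^ k))
      Filter.atTop (nhds (L s * 0 + B * 0)) := (ht2.const_mul _).add (ht.const_mul _)
  have h3 : ∀ k : ℕ, c ≤ L s * ((1 : ℝ) / (2 : ℝ) ^ k) + B * ((k : ℝ) / (2 : ℝ) ^ k) := by
    intro k
    have hp : (0 : ℝ) < 2 ^ k := by positivity
    have := h2 k
    rw [← sub_nonneg] at this ⊢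
    have e : L s * ((1 : ℝ) / (2 : ℝ) ^ k) + B * ((k : ℝ) / (2 : ℝ) ^ k) - c
        = (L s + k * B - c * 2 ^ k) / 2 ^ k := by
      field_simp
    rw [e]
    positivity
  have := ge_of_tendsto' ht3 h3
  simp at this
  linarith

/-- A loxodromic element: lengths of powers are almost additive. -/
lemma almost_additive_pow (h : IsLen L) {δ : ℝ} (h4 : FourPt L δ) {g : G} {B : ℝ}
    (hB : 3 * δ < B) (hδ : 0 ≤ δ) (hg : L g + B ≤ L (g ^ 2)) :
    ∀ n m : ℕ, L (g ^ n) + L (g ^ m) - (L g + 4 * δ) ≤ L (g ^ (n + m)) := by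
  have hr : B ≤ L g := by
    have := h.pow_le g 2
    push_cast at this
    linarith
  have step1 : ∀ n : ℕ, L (g ^ n) + (B - 2 * δ) ≤ L (g ^ (n + 1)) := by
    intro n
    induction n with
    | zero => simp [h.one]; linarith
    | succ n ih =>
      have := h4 1 (g ^ n) (g ^ (n + 1)) (g ^ (n + 2))
      have e1 : (g ^ n)⁻¹ * g ^ (n + 2) = g ^ 2 := by group
      have e2 : (g ^ (n + 1))⁻¹ * g ^ (n + 2) = g := by group
      have e3 : (g ^ n)⁻¹ * g ^ (n + 1) = g := by group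
      rw [e1, e2, e3] at this
      simp only [inv_one, one_mul] at this
      rw [← sub_le_iff_le_add, le_max_iff] at this
      rcases this with h5 | h5
      · exfalso; linarith
      · show L (g ^ (n + 1)) + (B - 2 * δ) ≤ L (g ^ (n + 2))
        linarith
  intro n m
  rcases m with _ | m
  · simp [h.one]; have := h.nonneg g; linarith
  · have h6 := h4 1 (g ^ n) (g ^ (n + 1)) (g ^ (n + (m + 1)))
    have e1 : (g ^ n)⁻¹ * g ^ (n + (m + 1)) = g ^ (m + 1) := by
      rw [pow_add]; group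
    have e2 : (g ^ (n + 1))⁻¹ * g ^ (n + (m + 1)) = g ^ m := by
      rw [show n + (m + 1) = (n + 1) + m by ring, pow_add g (n + 1) m]; group
    have e3 : (g ^ n)⁻¹ * g ^ (n + 1) = g := by group
    rw [e1, e2, e3] at h6
    simp only [inv_one, one_mul] at h6
    rw [← sub_le_iff_le_add, le_max_iff] at h6
    have s1 := step1 n
    have s2 := step1 m
    rcases h6 with h5 | h5
    · exfalso; linarith
    · linarith

lemma almost_additive (h : IsLen L) {δ : ℝ} (h4 : FourPt L δ) (hδ : 0 ≤ δ) {s : G} {c : ℝ}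
    (hc : 0 < c) (hs : ∀ n : ℕ, c * n ≤ L (s ^ n)) :
    ∃ K : ℝ, 0 ≤ K ∧ ∀ n m : ℕ, L (s ^ n) + L (s ^ m) - K ≤ L (s ^ (n + m)) := by
  obtain ⟨p, hp, hpB⟩ := h.exists_doubling hc hs (3 * δ + 1)
  have hadd := h.almost_additive_pow (g := s ^ p) (B := 3 * δ + 1) h4 (by linarith) hδ
    (by rw [← pow_mul, mul_comm p 2]; exact hpB)
  have hLs := h.nonneg s
  have hLp := h.nonneg (s ^ p)
  refine ⟨L (s ^ p) + 4 * δ + 4 * p * L s, by positivity, ?_⟩
  intro n m
  have hn : n = p * (n / p) + n % p := (Nat.div_add_mod n p).symm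
  have hm : m = p * (m / p) + m % p := (Nat.div_add_mod m p).symm
  set a := n / p
  set b := m / p
  set i := n % p with hi
  set j := m % p with hj
  have hip : i ≤ p := (Nat.mod_lt _ hp).le
  have hjp : j ≤ p := (Nat.mod_lt _ hp).le
  have key := hadd a b
  rw [← pow_mul, ← pow_mul, ← pow_mul] at key
  have en : s ^ n = s ^ (p * a) * s ^ i := by rw [← pow_add, ← hn]
  have em : s ^ m = s ^ (p * b) * s ^ j := by rw [← pow_add, ← hm]
  have enm : s ^ (n + m) = s ^ (p * (a + b)) * s ^ (i + j) := by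
    rw [← pow_add]; congr 1; rw [hn, hm]; ring
  have l1 := h.mul (s ^ (p * a)) (s ^ i)
  have l2 := h.mul (s ^ (p * b)) (s ^ j)
  have l3 := h.le_mul_right (s ^ (p * (a + b))) (s ^ (i + j))
  rw [← en] at l1
  rw [← em] at l2
  rw [← enm] at l3
  have p1 := h.pow_le s i
  have p2 := h.pow_le s j
  have p3 := h.pow_le s (i + j)
  have q1 : (i : ℝ) * L s ≤ p * L s := by
    apply mul_le_mul_of_nonneg_right _ hLs; exact_mod_cast hip
  have q2 : (j : ℝ) * L s ≤ p * L s := by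
    apply mul_le_mul_of_nonneg_right _ hLs; exact_mod_cast hjp
  push_cast at p3
  nlinarith

/-- Contraction along a quasi-axis. -/
lemma contraction (h : IsLen L) {δ : ℝ} (h4 : FourPt L δ) (hδ : 0 ≤ δ) {s : G} {K C R : ℝ}
    (hC : 0 ≤ C)
    (hs : ∀ n m : ℕ, L (s ^ n) + L (s ^ m) - K ≤ L (s ^ (n + m)))
    {u : G} (hu : L u ≤ R) {n m : ℕ} (hn : R + K ≤ L (s ^ n))
    (hm : L ((s ^ (n + m))⁻¹ * u * s ^ (n + m)) ≤ C) :
    L ((s ^ n)⁻¹ * u * s ^ n) ≤ K + 3 * C + 4 * δ := by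
  have ha := hs n m
  have hnn := h.nonneg (s ^ n)
  -- step i : points 1, s^n, u, y
  have i1 := h4 (s ^ n) 1 u (s ^ (n + m))
  simp only [inv_one, one_mul, mul_one] at i1
  have e1 : (s ^ n)⁻¹ * s ^ (n + m) = s ^ m := by rw [pow_add]; group
  rw [e1, h.inv (s ^ n)] at i1
  -- distance from u to y
  have uy : L (u⁻¹ * s ^ (n + m)) ≤ L (s ^ (n + m)) + C := by
    have := h.mul (s ^ (n + m)) ((s ^ (n + m))⁻¹ * u * s ^ (n + m))⁻¹
    have e : s ^ (n + m) * ((s ^ (n + m))⁻¹ * u * s ^ (n + m))⁻¹ = u⁻¹ * s ^ (n + m) := by group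
    rw [e, h.inv] at this
    linarith
  have uy' : L (s ^ (n + m)) ≤ L (u⁻¹ * s ^ (n + m)) + C := by
    have := h.mul (u⁻¹ * s ^ (n + m)) ((s ^ (n + m))⁻¹ * u * s ^ (n + m))
    have e : u⁻¹ * s ^ (n + m) * ((s ^ (n + m))⁻¹ * u * s ^ (n + m)) = s ^ (n + m) := by group
    rw [e] at this
    linarith
  rw [← sub_le_iff_le_add, le_max_iff] at i1
  have j1 : L ((s ^ n)⁻¹ * u) ≤ L (s ^ n) + C + 2 * δ := by
    rcases i1 with i1 | i1
    · linarith
    · linarith
  -- step ii : points s^n, u s^n, u, y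
  have i2 := h4 (s ^ n) u (u * s ^ n) (s ^ (n + m))
  have e2 : (s ^ n)⁻¹ * (u * s ^ n) = (s ^ n)⁻¹ * u * s ^ n := by group
  have e3 : u⁻¹ * (u * s ^ n) = s ^ n := by group
  rw [e1, e2, e3] at i2
  have vy : L ((u * s ^ n)⁻¹ * s ^ (n + m)) ≤ L (s ^ m) + C := by
    have := h.mul (s ^ m) ((s ^ (n + m))⁻¹ * u * s ^ (n + m))⁻¹
    have e : s ^ m * ((s ^ (n + m))⁻¹ * u * s ^ (n + m))⁻¹ = (u * s ^ n)⁻¹ * s ^ (n + m) := by
      rw [pow_add]; group
    rw [e, h.inv] at this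
    linarith
  rw [← sub_le_iff_le_add, le_max_iff] at i2
  rcases i2 with i2 | i2
  · linarith
  · linarith

end IsLen

end Pool.Agent.H5QP
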