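import Mathlib
import Pool.Agent.H5QP.Len

set_option autoImplicit false
open Pointwise

namespace Pool.Agent.H5QP

variable (E : Type)

/-- Permutations of `ℤ ⊕ E` with countable support that are eventually translations on `ℤ`
(the translation amount is recorded as second component). -/
def Gp : Subgroup (Equiv.Perm (ℤ ⊕ E) × Multiplicative ℤ) where
  carrier := {p | {x | p.1 x ≠ x}.Countable ∧
    ∃ N : ℤ, ∀ n : ℤ, N ≤ n → p.1 (Sum.inl n) = Sum.inl (n + Multiplicative.toAdd p.2)}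
  mul_mem' := by
    rintro p q ⟨hp1, N, hp2⟩ ⟨hq1, M, hq2⟩
    refine ⟨(hq1.union hp1).mono ?_, max M (N - Multiplicative.toAdd q.2), ?_⟩
    · intro x hx
      by_cases hqx : q.1 x = x
      · right
        intro hpx
        apply hx
        show p.1 (q.1 x) = x
        rw [hqx, hpx]
      · left
        exact hqx
    · intro n hn
      show p.1 (q.1 (Sum.inl n)) = _
      have h1 : M ≤ n := le_trans (le_max_left _ _) hn
      have h2 : N - Multiplicative.toAdd q.2 ≤ n := le_trans (le_max_right _ _) hn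
      rw [hq2 n h1, hp2 _ (by linarith)]
      simp only [Prod.snd_mul, toAdd_mul]
      congr 1
      ring
  one_mem' := by
    refine ⟨by simp, 0, ?_⟩
    intro n _
    simp
  inv_mem' := by
    rintro p ⟨hp1, N, hp2⟩
    refine ⟨hp1.mono ?_, N + Multiplicative.toAdd p.2, ?_⟩
    · intro x hx hpx
      apply hx
      show p.1⁻¹ x = x
      rw [Equiv.Perm.inv_eq_iff_eq]
      exact hpx.symm
    · intro n hn
      show p.1⁻¹ (Sum.inl n) = _
      rw [Equiv.Perm.inv_eq_iff_eq]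
      simp only [Prod.snd_inv, toAdd_inv]
      rw [hp2 _ (by linarith)]
      congr 1
      ring

variable {E}

/-- action of the group on the set -/
def act (g : Gp E) : Equiv.Perm (ℤ ⊕ E) := g.1.1

/-- the translation amount -/
def kk (g : Gp E) : ℤ := Multiplicative.toAdd g.1.2

@[simp] lemma act_mul (g h : Gp E) (x : ℤ ⊕ E) : act (g * h) x = act g (act h x) := rfl
@[simp] lemma act_one (x : ℤ ⊕ E) : act (1 : Gp E) x = x := rfl
lemma act_inv (g : Gp E) (x : ℤ ⊕ E) : act g⁻¹ x = (act g)⁻¹ x := rfl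
@[simp] lemma act_inv_act (g : Gp E) (x : ℤ ⊕ E) : act g⁻¹ (act g x) = x := by
  rw [← act_mul]; simp
@[simp] lemma act_act_inv (g : Gp E) (x : ℤ ⊕ E) : act g (act g⁻¹ x) = x := by
  rw [← act_mul]; simp

@[simp] lemma kk_mul (g h : Gp E) : kk (g * h) = kk g + kk h := rfl
@[simp] lemma kk_one : kk (1 : Gp E) = 0 := rfl
@[simp] lemma kk_inv (g : Gp E) : kk g⁻¹ = - kk g := rfl
@[simp] lemma kk_pow (g : Gp E) (n : ℕ) : kk (g ^ n) = n * kk g := by
  induction n with
  | zero => simp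
  | succ n ih => rw [pow_succ, kk_mul, ih]; push_cast; ring
@[simp] lemma kk_zpow (g : Gp E) (n : ℤ) : kk (g ^ n) = n * kk g := by
  cases n with
  | ofNat n => simp
  | negSucc n => simp only [zpow_negSucc, kk_inv, kk_pow]; rw [Int.negSucc_eq]; push_cast; ring

lemma ev (g : Gp E) : ∃ N : ℤ, ∀ n : ℤ, N ≤ n → act g (Sum.inl n) = Sum.inl (n + kk g) := g.2.2

lemma act_ext {g h : Gp E} (H : ∀ x, act g x = act h x) : g = h := by
  have h1 : g.1.1 = h.1.1 := Equiv.ext H
  apply Subtype.ext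
  apply Prod.ext h1
  obtain ⟨N, hN⟩ := ev g
  obtain ⟨M, hM⟩ := ev h
  have a1 := hN (max N M) (le_max_left _ _)
  have a2 := hM (max N M) (le_max_right _ _)
  rw [H, a2] at a1
  have := Sum.inl_injective a1
  have h3 : kk g = kk h := by linarith
  exact h3

lemma kk_eq_of_ev {g : Gp E} {N k : ℤ} (h : ∀ n : ℤ, N ≤ n → act g (Sum.inl n) = Sum.inl (n + k)) :
    kk g = k := by
  obtain ⟨M, hM⟩ := ev g
  have a1 := h (max N M) (le_max_left _ _)
  have a2 := hM (max N M) (le_max_right _ _)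
  rw [a2] at a1
  have := Sum.inl_injective a1
  linarith

/-- the shift -/
def sg : Gp E :=
  ⟨(Equiv.sumCongr (Equiv.addRight (1 : ℤ)) (Equiv.refl E), Multiplicative.ofAdd 1), by
    refine ⟨?_, 0, ?_⟩
    · apply (Set.countable_range (Sum.inl : ℤ → ℤ ⊕ E)).mono
      rintro (x | x) hx
      · exact ⟨x, rfl⟩
      · exact absurd rfl hx
    · intro n _
      rfl⟩

@[simp] lemma kk_sg : kk (sg : Gp E) = 1 := rfl
@[simp] lemma act_sg_inl (n : ℤ) : act (sg : Gp E) (Sum.inl n) = Sum.inl (n + 1) := rfl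
@[simp] lemma act_sg_inr (e : E) : act (sg : Gp E) (Sum.inr e) = Sum.inr e := rfl

@[simp] lemma act_sg_inv_inl (n : ℤ) : act (sg : Gp E)⁻¹ (Sum.inl n) = Sum.inl (n - 1) := by
  have : act (sg : Gp E) (Sum.inl (n - 1)) = Sum.inl n := by simp
  rw [← this, act_inv_act]
@[simp] lemma act_sg_inv_inr (e : E) : act (sg : Gp E)⁻¹ (Sum.inr e) = Sum.inr e := by
  have : act (sg : Gp E) (Sum.inr e) = Sum.inr e := by simp
  nth_rewrite 1 [← this]
  rw [act_inv_act]

@[simp] lemma act_sg_pow_inl (m : ℕ) (n : ℤ) :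
    act ((sg : Gp E) ^ m) (Sum.inl n) = Sum.inl (n + m) := by
  induction m generalizing n with
  | zero => simp
  | succ m ih => rw [pow_succ, act_mul, act_sg_inl, ih]; congr 1; push_cast; ring

@[simp] lemma act_sg_pow_inr (m : ℕ) (e : E) :
    act ((sg : Gp E) ^ m) (Sum.inr e) = Sum.inr e := by
  induction m with
  | zero => simp
  | succ m ih => rw [pow_succ, act_mul, act_sg_inr, ih]

@[simp] lemma act_sg_zpow_inl (m : ℤ) (n : ℤ) :
    act ((sg : Gp E) ^ m) (Sum.inl n) = Sum.inl (n + m) := by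
  cases m with
  | ofNat m => simp
  | negSucc m =>
    rw [zpow_negSucc]
    have : act ((sg : Gp E) ^ (m + 1)) (Sum.inl (n + Int.negSucc m)) = Sum.inl n := by
      rw [act_sg_pow_inl, Int.negSucc_eq]; congr 1; push_cast; ring
    rw [← this]
    simp only [act_inv_act]

@[simp] lemma act_sg_zpow_inr (m : ℤ) (e : E) :
    act ((sg : Gp E) ^ m) (Sum.inr e) = Sum.inr e := by
  cases m with
  | ofNat m => simp
  | negSucc m =>
    rw [zpow_negSucc]
    have : act ((sg : Gp E) ^ (m + 1)) (Sum.inr e) = Sum.inr e := by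
      rw [act_sg_pow_inr]
    nth_rewrite 1 [← this]
    simp only [act_inv_act]

/-- fixators of `[j, ∞)` -/
def QQ (E : Type) (j : ℤ) : Set (Gp E) := {g | ∀ n : ℤ, j ≤ n → act g (Sum.inl n) = Sum.inl n}

lemma kk_of_mem_QQ {j : ℤ} {g : Gp E} (h : g ∈ QQ E j) : kk g = 0 :=
  kk_eq_of_ev (N := j) (k := 0) (fun n hn => by rw [add_zero]; exact h n hn)

lemma QQ_mono {i j : ℤ} (hij : i ≤ j) : QQ E i ⊆ QQ E j := fun _ hg n hn => hg n (hij.trans hn)

lemma mul_mem_QQ {j : ℤ} {g h : Gp E} (hg : g ∈ QQ E j) (hh : h ∈ QQ E j) : g * h ∈ QQ E j := by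
  intro n hn
  rw [act_mul, hh n hn, hg n hn]

lemma inv_mem_QQ {j : ℤ} {g : Gp E} (hg : g ∈ QQ E j) : g⁻¹ ∈ QQ E j := by
  intro n hn
  nth_rewrite 1 [← hg n hn]
  simp

lemma one_mem_QQ {j : ℤ} : (1 : Gp E) ∈ QQ E j := by
  intro n hn
  simp

lemma pow_mem_QQ {j : ℤ} {g : Gp E} (hg : g ∈ QQ E j) (n : ℕ) : g ^ n ∈ QQ E j := by
  induction n with
  | zero => simpa using one_mem_QQ
  | succ n ih => rw [pow_succ]; exact mul_mem_QQ ih hg

/-- conjugation by powers of the shift -/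
lemma conj_mem_QQ {j : ℤ} {g : Gp E} (hg : g ∈ QQ E j) (n : ℕ) :
    ((sg : Gp E) ^ n)⁻¹ * g * sg ^ n ∈ QQ E (j - n) := by
  intro m hm
  rw [act_mul, act_mul, act_sg_pow_inl, hg _ (by linarith)]
  rw [← act_sg_pow_inl, act_inv_act]

lemma conj_mem_QQ' {j : ℤ} {g : Gp E} (hg : g ∈ QQ E j) (n : ℕ) :
    (sg : Gp E) ^ n * g * (sg ^ n)⁻¹ ∈ QQ E (j + n) := by
  intro m hm
  rw [act_mul, act_mul]
  have : (Sum.inl m : ℤ ⊕ E) = act (sg ^ n) (Sum.inl (m - n)) := by simp
  rw [this, act_inv_act, hg _ (by linarith)]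

lemma exists_QQ {g : Gp E} (hg : kk g = 0) : ∃ N : ℕ, g ∈ QQ E N := by
  obtain ⟨N, hN⟩ := ev g
  refine ⟨N.toNat, ?_⟩
  intro n hn
  rw [hN n (by omega), hg, add_zero]

end Pool.Agent.H5QP
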