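import Mathlib
import Pool.Agent.H5QP.Grp

set_option autoImplicit false
open Pointwise

namespace Pool.Agent.H5QP

variable {E : Type}

/-- levels at which the two rays agree -/
def AA (g h : Gp E) : Set ℤ :=
  {m | kk g ≤ m ∧ kk h ≤ m ∧
    ∀ n : ℤ, m ≤ n → act g (Sum.inl (n - kk g)) = act h (Sum.inl (n - kk h))}

noncomputable def mm (g h : Gp E) : ℤ := sInf (AA g h)

lemma AA_nonempty (g h : Gp E) : (AA g h).Nonempty := by
  obtain ⟨N, hN⟩ := ev g
  obtain ⟨M, hM⟩ := ev h
  refine ⟨max (max (kk g) (kk h)) (max (N + kk g) (M + kk h)), ?_, ?_, ?_⟩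
  · exact (le_max_left _ _).trans (le_max_left _ _)
  · exact (le_max_right _ _).trans (le_max_left _ _)
  · intro n hn
    have h1 : N + kk g ≤ n := ((le_max_left _ _).trans (le_max_right _ _)).trans hn
    have h2 : M + kk h ≤ n := ((le_max_right _ _).trans (le_max_right _ _)).trans hn
    rw [hN _ (by linarith), hM _ (by linarith)]
    congr 1
    ring

lemma AA_bdd (g h : Gp E) : BddBelow (AA g h) := ⟨kk g, fun _ hm => hm.1⟩

lemma mm_mem (g h : Gp E) : mm g h ∈ AA g h := Int.csInf_mem (AA_nonempty g h) (AA_bdd g h)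

lemma mm_le {g h : Gp E} {m : ℤ} (hm : m ∈ AA g h) : mm g h ≤ m := csInf_le (AA_bdd g h) hm

lemma kk_le_mm_left (g h : Gp E) : kk g ≤ mm g h := (mm_mem g h).1
lemma kk_le_mm_right (g h : Gp E) : kk h ≤ mm g h := (mm_mem g h).2.1

lemma AA_comm (g h : Gp E) : AA g h = AA h g := by
  ext m
  constructor
  · rintro ⟨a, b, c⟩
    exact ⟨b, a, fun n hn => (c n hn).symm⟩
  · rintro ⟨a, b, c⟩
    exact ⟨b, a, fun n hn => (c n hn).symm⟩

lemma mm_comm (g h : Gp E) : mm g h = mm h g := by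
  unfold mm; rw [AA_comm]

lemma mm_ultra (f g h : Gp E) : mm f h ≤ mm f g ∨ mm f h ≤ mm g h := by
  have key : mm f h ≤ max (mm f g) (mm g h) := by
    apply mm_le
    obtain ⟨a1, a2, a3⟩ := mm_mem f g
    obtain ⟨b1, b2, b3⟩ := mm_mem g h
    refine ⟨a1.trans (le_max_left _ _), b2.trans (le_max_right _ _), ?_⟩
    intro n hn
    rw [a3 n ((le_max_left _ _).trans hn), b3 n ((le_max_right _ _).trans hn)]
  exact le_max_iff.1 key

lemma mm_mul_le (f g h : Gp E) : mm (f * g) (f * h) ≤ kk f + mm g h := by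
  apply mm_le
  obtain ⟨a1, a2, a3⟩ := mm_mem g h
  refine ⟨by rw [kk_mul]; linarith, by rw [kk_mul]; linarith, ?_⟩
  intro n hn
  have := a3 (n - kk f) (by linarith)
  rw [act_mul, act_mul, kk_mul, kk_mul, ← sub_sub, ← sub_sub, this]

lemma mm_mul (f g h : Gp E) : mm (f * g) (f * h) = kk f + mm g h := by
  apply le_antisymm (mm_mul_le f g h)
  have := mm_mul_le f⁻¹ (f * g) (f * h)
  rw [inv_mul_cancel_left, inv_mul_cancel_left, kk_inv] at this
  linarith

/-- tree distance -/
noncomputable def dT (g h : Gp E) : ℤ := 2 * mm g h - kk g - kk h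

lemma dT_comm (g h : Gp E) : dT g h = dT h g := by
  unfold dT; rw [mm_comm]; ring

lemma dT_nonneg (g h : Gp E) : 0 ≤ dT g h := by
  have := kk_le_mm_left g h
  have := kk_le_mm_right g h
  unfold dT; linarith

lemma dT_mul (f g h : Gp E) : dT (f * g) (f * h) = dT g h := by
  unfold dT
  rw [mm_mul, kk_mul, kk_mul]; ring

lemma dT_tri (f g h : Gp E) : dT f h ≤ dT f g + dT g h := by
  have h1 := kk_le_mm_right f g
  have h2 := kk_le_mm_left g h
  unfold dT
  rcases mm_ultra f g h with h3 | h3 <;> linarith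

noncomputable def DD (g : Gp E) : ℤ := dT 1 g

lemma dT_eq (g h : Gp E) : dT g h = DD (g⁻¹ * h) := by
  unfold DD
  rw [← dT_mul g⁻¹ g h]; simp

lemma DD_mul (g h : Gp E) : DD (g * h) ≤ DD g + DD h := by
  have h1 := dT_tri 1 g (g * h)
  have h2 : dT g (g * h) = DD h := by
    rw [dT_eq]; simp
  unfold DD at *
  linarith

lemma DD_inv (g : Gp E) : DD g⁻¹ = DD g := by
  have : dT g 1 = DD g⁻¹ := by rw [dT_eq]; simp
  rw [← this, dT_comm]; rfl

lemma DD_one : DD (1 : Gp E) = 0 := by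
  apply le_antisymm _ (dT_nonneg _ _)
  have : mm (1 : Gp E) 1 ≤ 0 := by
    apply mm_le
    exact ⟨by simp, by simp, by simp⟩
  unfold dT
  simp
  linarith

lemma DD_QQ {q : Gp E} (hq : q ∈ QQ E 0) : DD q ≤ 0 := by
  have : mm (1 : Gp E) q ≤ 0 := by
    apply mm_le
    refine ⟨by simp, by rw [kk_of_mem_QQ hq], ?_⟩
    intro n hn
    rw [kk_of_mem_QQ hq, hq (n - 0) (by linarith)]
    simp
  unfold DD dT
  rw [kk_of_mem_QQ hq]
  simp
  linarith

lemma DD_sg : DD (sg : Gp E) ≤ 1 := by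
  have : mm (1 : Gp E) sg ≤ 1 := by
    apply mm_le
    refine ⟨by simp, by simp, ?_⟩
    intro n hn
    simp
  unfold DD dT
  simp
  linarith

lemma abs_kk_le_DD (g : Gp E) : |kk g| ≤ DD g := by
  have h1 := kk_le_mm_left 1 g
  have h2 := kk_le_mm_right 1 g
  unfold DD dT
  rw [kk_one] at *
  rw [abs_le]
  constructor <;> linarith

/-- The four point condition for the tree metric. -/
lemma dT_four (x y z w : Gp E) :
    dT x z + dT y w ≤ max (dT x y + dT z w) (dT y z + dT x w) := by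
  unfold dT
  have a1 := mm_ultra x y z
  have a2 := mm_ultra x w z
  have b1 := mm_ultra y x w
  have b2 := mm_ultra y z w
  rw [mm_comm w z] at a2
  rw [mm_comm y x] at b1
  rw [le_max_iff]
  omega

/-- the generating set -/
def XX (E : Type) : Set (Gp E) := QQ E 0 ∪ {sg}

/-- decomposition of elements -/
lemma decomp (g : Gp E) : ∃ (a b : ℕ) (q : Gp E), q ∈ QQ E 0 ∧ g = sg ^ a * q * (sg ^ b)⁻¹ ∧
    (a : ℤ) + b = DD g := by
  obtain ⟨h1, h2, h3⟩ := mm_mem 1 g
  rw [kk_one] at h1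
  refine ⟨(mm 1 g).toNat, (mm 1 g - kk g).toNat,
    (sg ^ (mm 1 g).toNat)⁻¹ * g * sg ^ (mm 1 g - kk g).toNat, ?_, by group, ?_⟩
  · intro n hn
    rw [act_mul, act_mul, act_sg_pow_inl]
    have h4 := h3 (n + mm 1 g) (by linarith)
    rw [act_one, kk_one, sub_zero] at h4
    have e : n + ((mm 1 g - kk g).toNat : ℤ) = n + mm 1 g - kk g := by omega
    rw [e, ← h4]
    have e2 : (Sum.inl (n + mm 1 g) : ℤ ⊕ E) = act (sg ^ (mm 1 g).toNat) (Sum.inl n) := by
      rw [act_sg_pow_inl]; congr 1; omega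
    rw [e2, act_inv_act]
  · unfold DD dT
    rw [kk_one]
    omega

lemma closure_XX : Subgroup.closure (XX E) = ⊤ := by
  rw [eq_top_iff]
  intro g _
  obtain ⟨a, b, q, hq, hg, _⟩ := decomp g
  rw [hg]
  have hs : (sg : Gp E) ∈ Subgroup.closure (XX E) := Subgroup.subset_closure (Or.inr rfl)
  exact mul_mem (mul_mem (pow_mem hs a) (Subgroup.subset_closure (Or.inl hq)))
    (inv_mem (pow_mem hs b))

lemma DD_le_wlen (g : Gp E) : DD g ≤ wlen (XX E) g := by
  have key : ∀ (n : ℕ) (g : Gp E), g ∈ (XX E ∪ (XX E)⁻¹) ^ n → DD g ≤ n := by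
    intro n
    induction n with
    | zero => intro g hg; simp at hg; rw [hg, DD_one]; simp
    | succ n ih =>
      intro g hg
      rw [pow_succ, Set.mem_mul] at hg
      obtain ⟨u, hu, v, hv, rfl⟩ := hg
      have h1 := ih u hu
      have h2 : DD v ≤ 1 := by
        have h3 : ∀ v : Gp E, v ∈ XX E → DD v ≤ 1 := by
          rintro v (hv | hv)
          · have := DD_QQ hv
            linarith
          · rw [Set.mem_singleton_iff] at hv
            rw [hv]; exact DD_sg
        rcases hv with hv | hv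
        · exact h3 v hv
        · rw [← DD_inv]; exact h3 _ hv
      have h3 := DD_mul u v
      push_cast
      linarith
  exact key _ _ (mem_pow_wlen closure_XX g)

lemma wlen_le_DD (g : Gp E) : (wlen (XX E) g : ℤ) ≤ DD g + 1 := by
  obtain ⟨a, b, q, hq, hg, hab⟩ := decomp g
  have hs : wlen (XX E) (sg : Gp E) ≤ 1 := wlen_mem (Or.inr rfl)
  have hpow : ∀ n : ℕ, wlen (XX E) ((sg : Gp E) ^ n) ≤ n := by
    intro n
    induction n with
    | zero => simp [wlen_one]
    | succ n ih =>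
      rw [pow_succ]
      have := wlen_mul (closure_XX (E := E)) (sg ^ n) sg
      omega
  have h1 := wlen_mul (closure_XX (E := E)) (sg ^ a * q) (sg ^ b)⁻¹
  have h2 := wlen_mul (closure_XX (E := E)) (sg ^ a) q
  have h3 := wlen_inv (closure_XX (E := E)) (sg ^ b)
  have h4 := hpow a
  have h5 := hpow b
  have h6 : wlen (XX E) q ≤ 1 := wlen_mem (Or.inl hq)
  rw [← hg] at h1
  omega

lemma DD_pow_sg (n : ℕ) : DD ((sg : Gp E) ^ n) ≤ n := by
  induction n with
  | zero => simp [DD_one]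
  | succ n ih =>
    rw [pow_succ]
    have := DD_mul ((sg : Gp E) ^ n) sg
    have := DD_sg (E := E)
    push_cast
    linarith

end Pool.Agent.H5QP
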