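import Mathlib
import Pool.Agent.H5QP.Tree

set_option autoImplicit false
open Pointwise

namespace Pool.Agent.H5QP

section defs
variable {G : Type*} [Group G]

noncomputable def gpr (S : Set G) (a b : G) : ℝ :=
  ((wlen S a : ℝ) + (wlen S b : ℝ) - (wlen S (a⁻¹ * b) : ℝ)) / 2

def Lox (S : Set G) (g : G) : Prop := ∃ c : ℝ, 0 < c ∧ ∀ n : ℕ, c * (n : ℝ) ≤ (wlen S (g ^ n) : ℝ)

def SameEnd (S : Set G) (a b : G) : Prop :=
  ∀ K : ℝ, ∃ N : ℕ, ∀ n m : ℕ, N ≤ n → N ≤ m → K ≤ gpr S (a ^ n) (b ^ m)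

def QPar (S : Set G) : Prop :=
  Subgroup.closure S = ⊤ ∧
         (∃ δ : ℝ, ∀ x y z : G, min (gpr S x y) (gpr S y z) - δ ≤ gpr S x z) ∧
         (∃ g h : G, Lox S g ∧ Lox S h ∧
            ¬ ((SameEnd S g h ∧ SameEnd S g⁻¹ h⁻¹) ∨
               (SameEnd S g h⁻¹ ∧ SameEnd S g⁻¹ h))) ∧
         (∀ g h : G, Lox S g → Lox S h →
            (SameEnd S g h ∨ SameEnd S g h⁻¹ ∨ SameEnd S g⁻¹ h ∨ SameEnd S g⁻¹ h⁻¹))

end defs

variable {E : Type}

/-- transpositions as elements of the group -/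
def sw [DecidableEq (ℤ ⊕ E)] (a b : ℤ ⊕ E) : Gp E :=
  ⟨(Equiv.swap a b, 1), by
    constructor
    · apply (Set.Finite.countable (Set.toFinite {a, b})).mono
      intro x hx
      by_contra h
      simp only [Set.mem_insert_iff, Set.mem_singleton_iff, not_or] at h
      exact hx (Equiv.swap_apply_of_ne_of_ne h.1 h.2)
    · refine ⟨max (Sum.elim id (fun _ => 0) a + 1) (Sum.elim id (fun _ => 0) b + 1), ?_⟩
      intro n hn
      simp only [toAdd_one, add_zero]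
      apply Equiv.swap_apply_of_ne_of_ne
      · rintro rfl
        have := (le_max_left _ _).trans hn
        simp at this
      · rintro rfl
        have := (le_max_right _ _).trans hn
        simp at this⟩

@[simp] lemma act_sw [DecidableEq (ℤ ⊕ E)] (a b x : ℤ ⊕ E) : act (sw a b) x = Equiv.swap a b x := rfl
@[simp] lemma kk_sw [DecidableEq (ℤ ⊕ E)] (a b : ℤ ⊕ E) : kk (sw a b) = 0 := rfl

lemma D_le_L (g : Gp E) : (DD g : ℝ) ≤ wlen (XX E) g := by exact_mod_cast DD_le_wlen g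
lemma L_le_D (g : Gp E) : (wlen (XX E) g : ℝ) ≤ DD g + 1 := by exact_mod_cast wlen_le_DD g

lemma hyp_XX : ∀ x y z : Gp E, min (gpr (XX E) x y) (gpr (XX E) y z) - 3 ≤ gpr (XX E) x z := by
  intro x y z
  have h := dT_four x y z 1
  rw [dT_eq x z, dT_comm y 1, dT_eq x y, dT_comm z 1, dT_eq y z, dT_comm x 1] at h
  change DD (x⁻¹ * z) + DD y ≤ max (DD (x⁻¹ * y) + DD z) (DD (y⁻¹ * z) + DD x) at h
  rw [le_max_iff] at h
  have a1 := D_le_L x
  have a2 := D_le_L y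
  have a3 := D_le_L z
  have a4 := D_le_L (x⁻¹ * y)
  have a5 := D_le_L (y⁻¹ * z)
  have a6 := D_le_L (x⁻¹ * z)
  have b1 := L_le_D x
  have b2 := L_le_D y
  have b3 := L_le_D z
  have b4 := L_le_D (x⁻¹ * y)
  have b5 := L_le_D (y⁻¹ * z)
  have b6 := L_le_D (x⁻¹ * z)
  unfold gpr
  rw [sub_le_iff_le_add, min_le_iff]
  rcases h with h | h
  · left
    have h' : (DD (x⁻¹ * z) : ℝ) + DD y ≤ DD (x⁻¹ * y) + DD z := by exact_mod_cast h
    linarith
  · right
    have h' : (DD (x⁻¹ * z) : ℝ) + DD y ≤ DD (y⁻¹ * z) + DD x := by exact_mod_cast h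
    linarith

lemma DD_of_QQ {q : Gp E} {N : ℕ} (hq : q ∈ QQ E N) : DD q ≤ 2 * N := by
  have : mm (1 : Gp E) q ≤ N := by
    apply mm_le
    refine ⟨by simp, by rw [kk_of_mem_QQ hq]; positivity, ?_⟩
    intro n hn
    rw [kk_of_mem_QQ hq, hq (n - 0) (by linarith)]
    simp
  unfold DD dT
  rw [kk_of_mem_QQ hq]
  simp
  linarith

lemma lox_kk {g : Gp E} (hg : Lox (XX E) g) : kk g ≠ 0 := by
  intro h0
  obtain ⟨N, hN⟩ := exists_QQ h0
  obtain ⟨c, hc, hg⟩ := hg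
  obtain ⟨n, hn⟩ := exists_nat_gt ((2 * N + 1) / c)
  have h1 := hg n
  have h2 := L_le_D (g ^ n)
  have h3 : (DD (g ^ n) : ℝ) ≤ 2 * N := by exact_mod_cast DD_of_QQ (pow_mem_QQ hN n)
  rw [div_lt_iff₀ hc] at hn
  linarith

lemma pow_ev {g : Gp E} {N : ℤ} (hN : ∀ n : ℤ, N ≤ n → act g (Sum.inl n) = Sum.inl (n + kk g))
    (hk : 0 ≤ kk g) (m : ℕ) : ∀ n : ℤ, N ≤ n → act (g ^ m) (Sum.inl n) = Sum.inl (n + m * kk g) := by
  induction m with
  | zero => simp
  | succ m ih =>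
    intro n hn
    rw [pow_succ', act_mul, ih n hn, hN _ (by have : 0 ≤ (m : ℤ) * kk g := by positivity
                                              linarith)]
    congr 1
    push_cast
    ring

lemma sameEnd_pos {g h : Gp E} (hg : 0 < kk g) (hh : 0 < kk h) : SameEnd (XX E) g h := by
  obtain ⟨N1, hN1⟩ := ev g
  obtain ⟨N2, hN2⟩ := ev h
  obtain ⟨N, hN, hN0, hg', hh'⟩ : ∃ N : ℤ, (0 ≤ N) ∧ (0 ≤ N) ∧
      (∀ n : ℤ, N ≤ n → act g (Sum.inl n) = Sum.inl (n + kk g)) ∧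
      (∀ n : ℤ, N ≤ n → act h (Sum.inl n) = Sum.inl (n + kk h)) := by
    refine ⟨max 0 (max N1 N2), le_max_left _ _, le_max_left _ _, ?_, ?_⟩
    · intro n hn
      exact hN1 n (((le_max_left _ _).trans (le_max_right _ _)).trans hn)
    · intro n hn
      exact hN2 n (((le_max_right _ _).trans (le_max_right _ _)).trans hn)
  intro K
  obtain ⟨M, hM⟩ := exists_nat_gt (K + N + 1)
  refine ⟨M, fun n m hn hm => ?_⟩
  have key : DD ((g ^ n)⁻¹ * h ^ m) ≤
      2 * N + 2 * max (m * kk h - n * kk g) 0 - (m * kk h - n * kk g) := by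
    have hk : kk ((g ^ n)⁻¹ * h ^ m) = m * kk h - n * kk g := by
      simp; ring
    have : mm 1 ((g ^ n)⁻¹ * h ^ m) ≤ N + max (m * kk h - n * kk g) 0 := by
      apply mm_le
      refine ⟨by simp; positivity, ?_, ?_⟩
      · rw [hk]; have := le_max_left (m * kk h - n * kk g) 0; linarith
      · intro r hr
        have e1 := le_max_left (m * kk h - n * kk g) 0
        have e2 := le_max_right (m * kk h - n * kk g) 0
        rw [hk, act_mul, pow_ev hh' hh.le m _ (by linarith)]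
        have e3 : r - (m * kk h - n * kk g) + m * kk h = r + n * kk g := by ring
        rw [e3, ← pow_ev hg' hg.le n r (by linarith)]
        simp
    unfold DD dT
    rw [hk, kk_one]
    linarith
  have h1 := abs_kk_le_DD (g ^ n)
  have h2 := abs_kk_le_DD (h ^ m)
  rw [kk_pow] at h1 h2
  have h1' := (le_abs_self _).trans h1
  have h2' := (le_abs_self _).trans h2
  have a1 := D_le_L (g ^ n)
  have a2 := D_le_L (h ^ m)
  have a3 := L_le_D ((g ^ n)⁻¹ * h ^ m)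
  have k1 : (M : ℤ) ≤ n * kk g := by nlinarith
  have k2 : (M : ℤ) ≤ m * kk h := by nlinarith
  have key2 : 2 * (M : ℤ) - 2 * N ≤ DD (g ^ n) + DD (h ^ m) - DD ((g ^ n)⁻¹ * h ^ m) := by
    rcases le_total (m * kk h - n * kk g) 0 with h5 | h5
    · rw [max_eq_right h5] at key; linarith
    · rw [max_eq_left h5] at key; linarith
  have key3 : 2 * (M : ℝ) - 2 * N ≤ DD (g ^ n) + DD (h ^ m) - DD ((g ^ n)⁻¹ * h ^ m) := by
    exact_mod_cast key2
  unfold gpr
  linarith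

theorem QPar_XX [Nonempty E] : QPar (XX E) := by
  classical
  refine ⟨closure_XX, ⟨3, hyp_XX⟩, ?_, ?_⟩
  · obtain ⟨e⟩ := ‹Nonempty E›
    set q : Gp E := sw (Sum.inl 0) (Sum.inr e) with hq
    have hlox : ∀ u : Gp E, kk u = 1 → Lox (XX E) u := by
      intro u hu
      refine ⟨1, one_pos, fun n => ?_⟩
      have h1 := abs_kk_le_DD (u ^ n)
      rw [kk_pow, hu] at h1
      have h2 : (n : ℤ) ≤ DD (u ^ n) := by
        have := le_abs_self ((n : ℤ) * 1)
        linarith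
      have h3 := D_le_L (u ^ n)
      have h4 : (n : ℝ) ≤ DD (u ^ n) := by exact_mod_cast h2
      linarith
    refine ⟨sg, q * sg * q⁻¹, hlox _ (by simp), hlox _ (by simp [hq]), ?_⟩
    have hpow : ∀ m : ℕ, ((q * sg * q⁻¹)⁻¹) ^ m = q * (sg ^ m)⁻¹ * q⁻¹ := by
      intro m
      have : (q * sg * q⁻¹)⁻¹ = q * sg⁻¹ * q⁻¹ := by group
      rw [this, conj_pow, inv_pow]
    have hDh : ∀ m : ℕ, DD (q * (sg ^ m)⁻¹ * q⁻¹) ≤ m + 2 * DD q := by
      intro m
      have h1 := DD_mul (q * (sg ^ m)⁻¹) q⁻¹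
      have h2 := DD_mul q (sg ^ m)⁻¹
      rw [DD_inv] at h1 h2
      have h3 := DD_pow_sg (E := E) m
      linarith
    rintro (⟨_, h⟩ | ⟨h, _⟩)
    · obtain ⟨N, hN⟩ := h (3 * DD q + 3)
      have h1 := hN N N le_rfl le_rfl
      rw [hpow N, inv_pow] at h1
      unfold gpr at h1
      rw [inv_inv] at h1
      have b1 := L_le_D ((sg : Gp E) ^ N)⁻¹
      have b2 := L_le_D (q * (sg ^ N)⁻¹ * q⁻¹)
      have b3 := D_le_L (sg ^ N * (q * (sg ^ N)⁻¹ * q⁻¹))
      have c1 := hDh N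
      rw [DD_inv] at b1
      have c2 := DD_pow_sg (E := E) N
      have c3 : DD (sg ^ N * q * (sg ^ N)⁻¹) ≤ DD (sg ^ N * (q * (sg ^ N)⁻¹ * q⁻¹)) + DD q := by
        have := DD_mul (sg ^ N * (q * (sg ^ N)⁻¹ * q⁻¹)) q
        have e1 : sg ^ N * (q * (sg ^ N)⁻¹ * q⁻¹) * q = sg ^ N * q * (sg ^ N)⁻¹ := by group
        rw [e1] at this
        exact this
      have c4 : (2 * N + 2 : ℤ) ≤ DD (sg ^ N * q * (sg ^ N)⁻¹) := by
        have hk : kk (sg ^ N * q * (sg ^ N)⁻¹) = 0 := by simp [hq]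
        have hm := mm_mem 1 (sg ^ N * q * (sg ^ N)⁻¹)
        have : (N : ℤ) + 1 ≤ mm 1 (sg ^ N * q * (sg ^ N)⁻¹) := by
          by_contra hcon
          push Not at hcon
          have h5 := hm.2.2 N (by linarith)
          rw [hk, sub_zero, kk_one, sub_zero, act_one, act_mul, act_mul] at h5
          have e3 : (Sum.inl (N : ℤ) : ℤ ⊕ E) = act (sg ^ N) (Sum.inl 0) := by simp
          rw [e3, act_inv_act, hq, act_sw, Equiv.swap_apply_left, act_sg_pow_inr] at h5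
          rw [act_sg_pow_inl] at h5
          exact absurd h5 (by simp)
        unfold DD dT
        rw [hk, kk_one]
        linarith
      have c1' : (DD (q * (sg ^ N)⁻¹ * q⁻¹) : ℝ) ≤ N + 2 * DD q := by exact_mod_cast c1
      have c2' : (DD ((sg : Gp E) ^ N) : ℝ) ≤ N := by exact_mod_cast c2
      have c3' : (DD (sg ^ N * q * (sg ^ N)⁻¹) : ℝ) ≤ DD (sg ^ N * (q * (sg ^ N)⁻¹ * q⁻¹)) + DD q := by
        exact_mod_cast c3
      have c4' : (2 * N + 2 : ℝ) ≤ DD (sg ^ N * q * (sg ^ N)⁻¹) := by exact_mod_cast c4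
      have c5 : (0 : ℝ) ≤ DD q := by exact_mod_cast dT_nonneg 1 q
      linarith
    · obtain ⟨N, hN⟩ := h (3 * DD q + 3)
      have h1 := hN N N le_rfl le_rfl
      rw [hpow N] at h1
      unfold gpr at h1
      have b1 := L_le_D ((sg : Gp E) ^ N)
      have b2 := L_le_D (q * (sg ^ N)⁻¹ * q⁻¹)
      have b3 := D_le_L ((sg ^ N)⁻¹ * (q * (sg ^ N)⁻¹ * q⁻¹))
      have c1 := hDh N
      have c2 := DD_pow_sg (E := E) N
      have c4 : (2 * N : ℤ) ≤ DD ((sg ^ N)⁻¹ * (q * (sg ^ N)⁻¹ * q⁻¹)) := by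
        have h5 := abs_kk_le_DD ((sg ^ N)⁻¹ * (q * (sg ^ N)⁻¹ * q⁻¹))
        have hk : kk ((sg ^ N)⁻¹ * (q * (sg ^ N)⁻¹ * q⁻¹)) = - (2 * N) := by
          simp [hq]; ring
        rw [hk, abs_neg] at h5
        exact (le_abs_self _).trans h5
      have c1' : (DD (q * (sg ^ N)⁻¹ * q⁻¹) : ℝ) ≤ N + 2 * DD q := by exact_mod_cast c1
      have c2' : (DD ((sg : Gp E) ^ N) : ℝ) ≤ N := by exact_mod_cast c2
      have c4' : (2 * N : ℝ) ≤ DD ((sg ^ N)⁻¹ * (q * (sg ^ N)⁻¹ * q⁻¹)) := by exact_mod_cast c4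
      have c5 : (0 : ℝ) ≤ DD q := by exact_mod_cast dT_nonneg 1 q
      linarith
  · intro g h hg hh
    have h1 := lox_kk hg
    have h2 := lox_kk hh
    rcases lt_or_gt_of_ne h1 with h1 | h1 <;> rcases lt_or_gt_of_ne h2 with h2 | h2
    · right; right; right
      exact sameEnd_pos (by simpa using h1) (by simpa using h2)
    · right; right; left
      exact sameEnd_pos (by simpa using h1) (by simpa using h2)
    · right; left
      exact sameEnd_pos (by simpa using h1) (by simpa using h2)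
    · left
      exact sameEnd_pos (by simpa using h1) (by simpa using h2)

end Pool.Agent.H5QP
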