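import Mathlib
import Pool.Agent.H5QP.Tree

set_option autoImplicit false
open Pointwise

namespace Pool.Agent.H5QP

section abstract_swindle

abbrev II : Type := Option (ℕ × ℤ)

variable {D : Type}

/-- fibrewise permutation -/
def fib (u : II → Equiv.Perm D) : Equiv.Perm (II × D) := Equiv.prodShear (Equiv.refl II) u

/-- base permutation -/
def bas (p : Equiv.Perm II) : Equiv.Perm (II × D) := Equiv.prodShear p (fun _ => Equiv.refl D)

@[simp] lemma fib_apply (u : II → Equiv.Perm D) (x : II × D) : fib u x = (x.1, u x.1 x.2) := rfl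
@[simp] lemma bas_apply (p : Equiv.Perm II) (x : II × D) : bas p x = (p x.1, x.2) := rfl

/-- permutation in one fibre -/
def one_fib (i : II) (u : Equiv.Perm D) : Equiv.Perm (II × D) :=
  fib (fun j => if j = i then u else 1)

/-- shift in the `n`th line -/
def shft (n : ℕ) : Equiv.Perm II :=
  Equiv.optionCongr (Equiv.prodShear (Equiv.refl ℕ)
    (fun k => if k = n then Equiv.addRight (1 : ℤ) else Equiv.refl ℤ))

lemma shft_none (n : ℕ) : shft n none = none := rfl
lemma shft_same (n : ℕ) (i : ℤ) : shft n (some (n, i)) = some (n, i + 1) := by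
  simp [shft]
lemma shft_ne {n m : ℕ} (h : m ≠ n) (i : ℤ) : shft n (some (m, i)) = some (m, i) := by
  simp [shft, h]

/-- the swindle element -/
def swd (u : ℕ → Equiv.Perm D) : Equiv.Perm (II × D) :=
  fib (fun j => match j with
    | none => 1
    | some (n, i) => if 0 ≤ i then u n else 1)

lemma swindle_identity (u : ℕ → Equiv.Perm D) (n : ℕ) :
    swd u * bas (shft n) = one_fib (some (n, 0)) (u n) * bas (shft n) * swd u := by
  apply Equiv.ext
  rintro ⟨j, d⟩
  simp only [Equiv.Perm.mul_apply, bas_apply, swd, fib_apply, one_fib]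
  rcases j with _ | ⟨m, i⟩
  · simp [shft_none]
  · by_cases h : m = n
    · subst h
      rw [shft_same]
      rcases lt_trichotomy i (-1) with h1 | h1 | h1
      · have h2 : ¬ (0 ≤ i) := by omega
        have h3 : ¬ (0 ≤ i + 1) := by omega
        have h4 : ¬ (i + 1 = 0) := by omega
        simp [h2, h3, h4]
      · subst h1
        simp
      · have h2 : 0 ≤ i := by omega
        have h3 : 0 ≤ i + 1 := by omega
        have h4 : ¬ (i + 1 = 0) := by omega
        simp [h2, h3, h4]
    · rw [shft_ne h]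
      simp [h]

lemma one_fib_conj (n : ℕ) (u : Equiv.Perm D) :
    one_fib none u =
      bas (Equiv.swap none (some (n, 0))) * one_fib (some (n, 0)) u *
        (bas (Equiv.swap none (some (n, 0))))⁻¹ := by
  rw [eq_mul_inv_iff_mul_eq]
  apply Equiv.ext
  rintro ⟨j, d⟩
  simp only [Equiv.Perm.mul_apply, bas_apply, fib_apply, one_fib]
  by_cases h1 : j = none
  · subst h1
    simp
  · by_cases h2 : j = some (n, 0)
    · subst h2
      simp
    · rw [Equiv.swap_apply_of_ne_of_ne h1 h2]
      simp [h1, h2]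

theorem swindle_bound {L : Equiv.Perm (II × D) → ℝ} (hL : IsLen L) :
    ∃ C : ℝ, ∀ u : Equiv.Perm D, L (one_fib none u) ≤ C := by
  by_contra hcon
  push Not at hcon
  set r : ℕ → Equiv.Perm (II × D) := fun n => bas (Equiv.swap none (some (n, 0))) with hr
  set s : ℕ → Equiv.Perm (II × D) := fun n => bas (shft n) with hs
  choose u hu using fun n : ℕ => hcon (2 * L (r n) + 2 * L (s n) + 2 * n)
  obtain ⟨n, hn⟩ := exists_nat_ge (L (swd u))
  have h1 := hu n
  have h2 : one_fib (some (n, 0)) (u n) = swd u * s n * (swd u)⁻¹ * (s n)⁻¹ := by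
    rw [eq_mul_inv_iff_mul_eq, eq_mul_inv_iff_mul_eq, ← swindle_identity]
  rw [one_fib_conj n (u n)] at h1
  change _ < L (r n * one_fib (some (n, 0)) (u n) * (r n)⁻¹) at h1
  have h3 := hL.mul (r n * one_fib (some (n, 0)) (u n)) (r n)⁻¹
  have h4 := hL.mul (r n) (one_fib (some (n, 0)) (u n))
  have h5 := hL.mul (swd u * s n * (swd u)⁻¹) (s n)⁻¹
  have h6 := hL.mul (swd u * s n) (swd u)⁻¹
  have h7 := hL.mul (swd u) (s n)
  rw [← h2] at h5
  rw [hL.inv] at h3 h5 h6
  linarith

end abstract_swindle

section concrete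

variable {E : Type}

/-- transport of permutations through an embedding with countable range avoiding the positive
integers -/
noncomputable def tr {A : Type} [Countable A] (ι : A ↪ ℤ ⊕ E)
    (hι : ∀ a, ∀ n : ℤ, 0 ≤ n → ι a ≠ Sum.inl n) :
    Equiv.Perm A →* Gp E where
  toFun p := ⟨(Equiv.Perm.viaEmbeddingHom ι p, 1), by
    constructor
    · apply (Set.countable_range ι).mono
      intro x hx
      by_contra h
      exact hx (Equiv.Perm.viaEmbedding_apply_of_notMem p ι x h)
    · refine ⟨0, fun n hn => ?_⟩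
      simp only [toAdd_one, add_zero]
      apply Equiv.Perm.viaEmbedding_apply_of_notMem p ι
      rintro ⟨a, ha⟩
      exact hι a n hn ha⟩
  map_one' := by
    apply Subtype.ext
    simp
  map_mul' p q := by
    apply Subtype.ext
    simp

lemma act_tr_apply {A : Type} [Countable A] (ι : A ↪ ℤ ⊕ E)
    (hι : ∀ a, ∀ n : ℤ, 0 ≤ n → ι a ≠ Sum.inl n) (p : Equiv.Perm A) (a : A) :
    act (tr ι hι p) (ι a) = ι (p a) := Equiv.Perm.viaEmbedding_apply p ι a

lemma act_tr_notMem {A : Type} [Countable A] (ι : A ↪ ℤ ⊕ E)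
    (hι : ∀ a, ∀ n : ℤ, 0 ≤ n → ι a ≠ Sum.inl n) (p : Equiv.Perm A) (x : ℤ ⊕ E)
    (hx : x ∉ Set.range ι) :
    act (tr ι hι p) x = x := Equiv.Perm.viaEmbedding_apply_of_notMem p ι x hx

/-- The set of points off the positive integers. -/
def neg (E : Type) : Set (ℤ ⊕ E) := {x | ∀ n : ℤ, 0 ≤ n → x ≠ Sum.inl n}

lemma bound_countable [Uncountable E] {L : Gp E → ℝ} (hL : IsLen L) {D : Set (ℤ ⊕ E)}
    (hD : D.Countable) (hneg : D ⊆ neg E) :
    ∃ C : ℝ, ∀ g : Gp E, (∀ x, x ∉ D → act g x = x) → L g ≤ C := by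
  have : Countable D := hD.to_subtype
  -- an infinite room
  have hinf : (neg E \ D).Infinite := by
    intro hfin
    have h1 : (Set.range (Sum.inr : E → ℤ ⊕ E)) ⊆ (neg E \ D) ∪ D := by
      rintro _ ⟨e, rfl⟩
      by_cases h : (Sum.inr e : ℤ ⊕ E) ∈ D
      · exact Or.inr h
      · exact Or.inl ⟨fun n _ => by simp, h⟩
    have h2 : (Set.range (Sum.inr : E → ℤ ⊕ E)).Countable := (hfin.countable.union hD).mono h1
    have h3 : Countable E := by
      have := h2.to_subtype
      exact (Equiv.ofInjective (Sum.inr : E → ℤ ⊕ E) Sum.inr_injective).countable_iff.2 this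
    exact not_countable h3
  obtain ⟨f, hf⟩ := exists_injective_nat ((ℕ × ℤ) × D)
  let j := Set.Infinite.natEmbedding _ hinf
  let ιf : II × D → ℤ ⊕ E := fun x => match x with
    | (none, d) => d
    | (some i, d) => (j (f (i, d)) : ℤ ⊕ E)
  have hιf : Function.Injective ιf := by
    rintro ⟨a, d⟩ ⟨b, e⟩ h
    rcases a with _ | a <;> rcases b with _ | b
    · simp only [ιf] at h
      rw [Subtype.ext h]
    · simp only [ιf] at h
      exact absurd (h ▸ d.2) (j (f (b, e))).2.2
    · simp only [ιf] at h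
      exact absurd (h ▸ e.2) (j (f (a, d))).2.2
    · simp only [ιf] at h
      have := hf (j.injective (Subtype.ext h))
      simp only [Prod.mk.injEq] at this
      rw [this.1, this.2]
  let ι : II × D ↪ ℤ ⊕ E := ⟨ιf, hιf⟩
  have hι : ∀ a, ∀ n : ℤ, 0 ≤ n → ι a ≠ Sum.inl n := by
    rintro ⟨a, d⟩
    rcases a with _ | a
    · exact hneg d.2
    · exact (j (f (a, d))).2.1
  have hLt : IsLen (fun p : Equiv.Perm (II × D) => L (tr ι hι p)) :=
    { one := by rw [map_one]; exact hL.one
      inv := fun p => by rw [map_inv]; exact hL.inv _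
      mul := fun p q => by rw [map_mul]; exact hL.mul _ _ }
  obtain ⟨C, hC⟩ := swindle_bound hLt
  refine ⟨C, fun g hg => ?_⟩
  have hgD : ∀ x, act g x ∈ D ↔ x ∈ D := by
    intro x
    constructor
    · intro h
      by_contra hx
      rw [hg x hx] at h
      exact hx h
    · intro h
      by_contra hx
      have h2 := hg _ hx
      have h3 : act g x = x := (act g).injective h2
      rw [h3] at hx
      exact hx h
  have key : g = tr ι hι (one_fib none (Equiv.Perm.subtypePerm (act g) hgD)) := by
    apply act_ext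
    intro x
    by_cases hx : x ∈ Set.range ι
    · obtain ⟨⟨a, d⟩, rfl⟩ := hx
      rw [act_tr_apply]
      rcases a with _ | a
      · show act g d = _
        simp only [one_fib, fib_apply, if_true]
        rfl
      · have h1 : ι (some a, d) ∉ D := (j (f (a, d))).2.2
        rw [hg _ h1]
        simp only [one_fib, fib_apply, reduceCtorEq, if_false]
        rfl
    · rw [act_tr_notMem _ _ _ _ hx]
      apply hg
      intro hxD
      exact hx ⟨(none, ⟨x, hxD⟩), rfl⟩
  rw [key]
  exact hC _

/-- Boundedness of every length function on the vertex group. -/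
theorem bound_QQ [Uncountable E] {L : Gp E → ℝ} (hL : IsLen L) :
    ∃ C : ℝ, ∀ g ∈ QQ E 0, L g ≤ C := by
  by_contra hcon
  push Not at hcon
  choose g hg using fun n : ℕ => hcon n
  set D : Set (ℤ ⊕ E) := ⋃ n, {x | act (g n) x ≠ x} with hD
  have hDc : D.Countable := Set.countable_iUnion fun n => (g n).2.1
  have hDn : D ⊆ neg E := by
    intro x hx
    rw [hD, Set.mem_iUnion] at hx
    obtain ⟨n, hn⟩ := hx
    intro m hm h
    apply hn
    rw [h]
    exact (hg n).1 m hm
  obtain ⟨C, hC⟩ := bound_countable hL hDc hDn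
  obtain ⟨n, hn⟩ := exists_nat_ge C
  have h1 := hC (g n) (fun x hx => by
    by_contra h
    apply hx
    rw [hD, Set.mem_iUnion]
    exact ⟨n, h⟩)
  have h2 := (hg n).2
  linarith

end concrete

end Pool.Agent.H5QP
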