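import Mathlib
import Pool.Agent.H5QP.QPX
import Pool.Agent.H5QP.Swindle

set_option autoImplicit false
open Pointwise

namespace Pool.Agent.H5QP

section general
variable {G : Type*} [Group G]

lemma fourPt_of_gpr {S : Set G} (hS : Subgroup.closure S = ⊤) {δ : ℝ}
    (h : ∀ x y z : G, min (gpr S x y) (gpr S y z) - δ ≤ gpr S x z) :
    FourPt (fun g => (wlen S g : ℝ)) δ := by
  intro x y z w
  have hL := isLen_wlen hS
  have h1 := h (w⁻¹ * x) (w⁻¹ * y) (w⁻¹ * z)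
  unfold gpr at h1
  have e1 : (w⁻¹ * x)⁻¹ * (w⁻¹ * y) = x⁻¹ * y := by group
  have e2 : (w⁻¹ * y)⁻¹ * (w⁻¹ * z) = y⁻¹ * z := by group
  have e3 : (w⁻¹ * x)⁻¹ * (w⁻¹ * z) = x⁻¹ * z := by group
  rw [e1, e2, e3, sub_le_iff_le_add, min_le_iff] at h1
  have c1 := hL.comm_inv w x
  have c2 := hL.comm_inv w y
  have c3 := hL.comm_inv w z
  simp only at c1 c2 c3 ⊢
  rw [← sub_le_iff_le_add, le_max_iff]
  rcases h1 with h1 | h1
  · left; linarith
  · right; linarith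

lemma delta_nonneg {S : Set G} {δ : ℝ}
    (h : ∀ x y z : G, min (gpr S x y) (gpr S y z) - δ ≤ gpr S x z) : 0 ≤ δ := by
  have := h 1 1 1
  simp only [min_self] at this
  linarith

lemma lox_inv {S : Set G} (hS : Subgroup.closure S = ⊤) {g : G} (hg : Lox S g) : Lox S g⁻¹ := by
  obtain ⟨c, hc, h⟩ := hg
  exact ⟨c, hc, fun n => by rw [inv_pow, wlen_inv hS]; exact h n⟩

end general

variable {E : Type}

/-- conjugation of transpositions -/
lemma conj_sw [DecidableEq (ℤ ⊕ E)] (g : Gp E) (a b : ℤ ⊕ E) :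
    g * sw a b * g⁻¹ = sw (act g a) (act g b) := by
  apply act_ext
  intro x
  rw [act_mul, act_mul, act_sw, act_sw, Equiv.swap_apply_def, Equiv.swap_apply_def]
  by_cases h1 : act g⁻¹ x = a
  · have h2 : x = act g a := by rw [← h1, act_act_inv]
    rw [if_pos h1, if_pos h2]
  · have h2 : ¬ (x = act g a) := by
      intro h
      apply h1
      rw [h, act_inv_act]
    rw [if_neg h1, if_neg h2]
    by_cases h3 : act g⁻¹ x = b
    · have h4 : x = act g b := by rw [← h3, act_act_inv]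
      rw [if_pos h3, if_pos h4]
    · have h4 : ¬ (x = act g b) := by
        intro h
        apply h3
        rw [h, act_inv_act]
      rw [if_neg h3, if_neg h4, act_act_inv]

lemma sw_comm [DecidableEq (ℤ ⊕ E)] (a b : ℤ ⊕ E) : (sw a b : Gp E) = sw b a := by
  apply act_ext
  intro x
  rw [act_sw, act_sw, Equiv.swap_comm]

lemma sw_self [DecidableEq (ℤ ⊕ E)] (a : ℤ ⊕ E) : (sw a a : Gp E) = 1 := by
  apply act_ext
  intro x
  rw [act_sw, Equiv.swap_self]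
  rfl

lemma sw_mul_self [DecidableEq (ℤ ⊕ E)] (a b : ℤ ⊕ E) : (sw a b : Gp E) * sw a b = 1 := by
  apply act_ext
  intro x
  simp

lemma sw_mem_QQ [DecidableEq (ℤ ⊕ E)] {a b : ℤ ⊕ E} (ha : a ∈ neg E) (hb : b ∈ neg E) :
    sw a b ∈ QQ E 0 := by
  intro n hn
  rw [act_sw]
  exact Equiv.swap_apply_of_ne_of_ne (fun h => ha n hn h.symm) (fun h => hb n hn h.symm)

lemma neg_infinite [Uncountable E] : (neg E).Infinite := by
  have : Infinite E := inferInstance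
  apply (Set.infinite_range_of_injective (Sum.inr_injective (α := ℤ) (β := E))).mono
  rintro _ ⟨e, rfl⟩ n _
  simp

/-- data for the uniqueness argument -/
structure Dat (L : Gp E → ℝ) (C0 K c δ : ℝ) : Prop where
  len : IsLen L
  four : FourPt L δ
  hδ : 0 ≤ δ
  C0nn : 0 ≤ C0
  bd : ∀ q ∈ QQ E 0, L q ≤ C0
  hc : 0 < c
  lox : ∀ n : ℕ, c * n ≤ L (sg ^ n)
  Knn : 0 ≤ K
  add : ∀ n m : ℕ, L (sg ^ n) + L (sg ^ m) - K ≤ L (sg ^ (n + m))

lemma bound_QQ_N {L : Gp E → ℝ} (hL : IsLen L) {C0 : ℝ} (hb : ∀ q ∈ QQ E 0, L q ≤ C0) (N : ℕ) :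
    ∀ q ∈ QQ E N, L q ≤ C0 + 2 * L (sg ^ N) := by
  intro q hq
  have h1 := conj_mem_QQ hq N
  rw [sub_self] at h1
  have h2 := hb _ h1
  have h3 := hL.mul (sg ^ N * ((sg ^ N)⁻¹ * q * sg ^ N)) (sg ^ N)⁻¹
  have h4 := hL.mul (sg ^ N) ((sg ^ N)⁻¹ * q * sg ^ N)
  have e : sg ^ N * ((sg ^ N)⁻¹ * q * sg ^ N) * (sg ^ N)⁻¹ = q := by group
  rw [e, hL.inv] at h3
  linarith

lemma lox_kk' {L : Gp E → ℝ} (hL : IsLen L) {C0 : ℝ} (hb : ∀ q ∈ QQ E 0, L q ≤ C0) {g : Gp E}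
    {c : ℝ} (hc : 0 < c) (hg : ∀ n : ℕ, c * n ≤ L (g ^ n)) : kk g ≠ 0 := by
  intro h0
  obtain ⟨N, hN⟩ := exists_QQ h0
  obtain ⟨n, hn⟩ := exists_nat_gt ((C0 + 2 * L (sg ^ N)) / c)
  have h1 := hg n
  have h3 := bound_QQ_N hL hb N _ (pow_mem_QQ hN n)
  rw [div_lt_iff₀ hc] at hn
  linarith

/-- the shift has linear growth as soon as some element with positive translation has. -/
lemma sg_lox {L : Gp E → ℝ} (hL : IsLen L) {C0 : ℝ} (hb : ∀ q ∈ QQ E 0, L q ≤ C0) {g : Gp E}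
    {c : ℝ} (hc : 0 < c) (hg : ∀ n : ℕ, c * n ≤ L (g ^ n)) (hk : 0 < kk g) :
    ∃ c' : ℝ, 0 < c' ∧ ∀ n : ℕ, c' * n ≤ L (sg ^ n) := by
  obtain ⟨k, hk'⟩ : ∃ k : ℕ, kk g = k := ⟨(kk g).toNat, by omega⟩
  obtain ⟨N, hN⟩ : ∃ N : ℕ, ∀ n : ℤ, (N : ℤ) ≤ n → act g (Sum.inl n) = Sum.inl (n + kk g) := by
    obtain ⟨N, hN⟩ := ev g
    exact ⟨N.toNat, fun n hn => hN n (by omega)⟩
  set CN := C0 + 2 * L (sg ^ N) with hCN
  have h1 : ∀ n : ℕ, c * n ≤ L (sg ^ (n * k)) + CN := by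
    intro n
    have hq : (sg ^ (n * k))⁻¹ * g ^ n ∈ QQ E N := by
      intro m hm
      rw [act_mul, pow_ev hN hk.le n m hm]
      have : (Sum.inl (m + n * kk g) : ℤ ⊕ E) = act (sg ^ (n * k)) (Sum.inl m) := by
        rw [act_sg_pow_inl, hk', Nat.cast_mul]
      rw [this, act_inv_act]
    have h2 := bound_QQ_N hL hb N _ hq
    have h3 := hL.mul (sg ^ (n * k)) ((sg ^ (n * k))⁻¹ * g ^ n)
    rw [mul_inv_cancel_left] at h3
    have h4 := hg n
    linarith
  have h2 : ∀ n : ℕ, c * n ≤ L (sg ^ (n * k)) := by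
    intro n
    by_contra hcon
    push Not at hcon
    obtain ⟨m, hm⟩ := exists_nat_gt (CN / (c * n - L (sg ^ (n * k))))
    rw [div_lt_iff₀ (by linarith)] at hm
    have h3 := h1 (m * n)
    have h4 := hL.pow_le (sg ^ (n * k)) m
    rw [← pow_mul, show n * k * m = m * n * k by ring] at h4
    push_cast at h3
    nlinarith
  have hkpos : 0 < k := by omega
  have hkpos' : (0 : ℝ) < k := by exact_mod_cast hkpos
  refine ⟨c / k, by positivity, fun n => ?_⟩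
  have h3 := h2 n
  have h4 := hL.pow_le (sg ^ n) k
  rw [← pow_mul] at h4
  rw [div_mul_eq_mul_div, div_le_iff₀ hkpos']
  linarith

namespace Dat

variable {L : Gp E → ℝ} {C0 K c δ : ℝ}

lemma lip_pos (d : Dat L C0 K c δ) {g : Gp E} (hk : 0 ≤ kk g) : c * kk g ≤ L g + K + C0 := by
  obtain ⟨k, hk'⟩ : ∃ k : ℕ, kk g = k := ⟨(kk g).toNat, by omega⟩
  obtain ⟨N, hN⟩ : ∃ N : ℕ, ∀ n : ℤ, (N : ℤ) ≤ n → act g (Sum.inl n) = Sum.inl (n + kk g) := by
    obtain ⟨N, hN⟩ := ev g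
    exact ⟨N.toNat, fun n hn => hN n (by omega)⟩
  have hq : (sg ^ (N + k))⁻¹ * g * sg ^ N ∈ QQ E 0 := by
    intro m hm
    rw [act_mul, act_mul, act_sg_pow_inl, hN _ (by linarith)]
    have : (Sum.inl (m + N + kk g) : ℤ ⊕ E) = act (sg ^ (N + k)) (Sum.inl m) := by
      rw [act_sg_pow_inl, hk']; congr 1; push_cast; ring
    rw [this, act_inv_act]
  have h1 := d.bd _ hq
  have h2 := d.len.mul (g * sg ^ N) ((sg ^ (N + k))⁻¹ * g * sg ^ N)⁻¹
  have e : g * sg ^ N * ((sg ^ (N + k))⁻¹ * g * sg ^ N)⁻¹ = sg ^ (N + k) := by group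
  rw [e, d.len.inv] at h2
  have h3 := d.len.mul g (sg ^ N)
  have h4 := d.add N k
  have h5 := d.lox k
  rw [hk']
  push_cast
  linarith

lemma lip (d : Dat L C0 K c δ) (g : Gp E) : c * |kk g| ≤ L g + K + C0 := by
  rcases le_total 0 (kk g) with h | h
  · rw [abs_of_nonneg h]
    exact_mod_cast d.lip_pos h
  · rw [abs_of_nonpos h]
    have := d.lip_pos (g := g⁻¹) (by simpa using h)
    rw [d.len.inv, kk_inv] at this
    exact this

/-- the contraction constant -/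
def K2 (C0 K δ : ℝ) : ℝ := K + 3 * C0 + 4 * δ

lemma K2nn (d : Dat L C0 K c δ) : 0 ≤ K2 C0 K δ := by
  have := d.Knn
  have := d.C0nn
  have := d.hδ
  unfold K2
  positivity

lemma contr (d : Dat L C0 K c δ) (R : ℝ) : ∃ n0 : ℕ, ∀ n : ℕ, n0 ≤ n → ∀ h : Gp E, kk h = 0 →
    L h ≤ R → L ((sg ^ n)⁻¹ * h * sg ^ n) ≤ K2 C0 K δ := by
  obtain ⟨n0, hn0⟩ := exists_nat_gt ((R + K) / c)
  refine ⟨n0, fun n hn h hk hR => ?_⟩
  obtain ⟨N, hN⟩ := exists_QQ hk
  apply d.len.contraction (δ := δ) (K := K) (C := C0) (R := R) d.four d.hδ d.C0nn d.add hR (m := N)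
  · rw [div_lt_iff₀ d.hc] at hn0
    have h1 := d.lox n
    have h2 : (n0 : ℝ) * c ≤ n * c := by
      apply mul_le_mul_of_nonneg_right _ d.hc.le
      exact_mod_cast hn
    linarith
  · apply d.bd
    have h1 := conj_mem_QQ hN (n + N)
    apply QQ_mono _ h1
    push_cast
    linarith

/-- Elements of every level of bounded length -/
lemma levels (d : Dat L C0 K c δ) {R : ℝ} (hR : ∀ N : ℕ, ∃ h : Gp E, kk h = 0 ∧ L h ≤ R ∧ h ∉ QQ E N)
    (j : ℕ) : ∃ h : Gp E, L h ≤ K2 C0 K δ ∧ h ∈ QQ E (j + 1) ∧ h ∉ QQ E j := by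
  classical
  obtain ⟨n0, hn0⟩ := d.contr R
  obtain ⟨h, hk, hL, hnot⟩ := hR (j + n0)
  have hex : ∃ M : ℕ, h ∈ QQ E M := exists_QQ hk
  set M := Nat.find hex with hM
  have hMm : h ∈ QQ E M := Nat.find_spec hex
  have hMmin : ∀ m : ℕ, m < M → h ∉ QQ E m := fun m hm => Nat.find_min hex hm
  have hlt : j + n0 < M := by
    by_contra hcon
    push Not at hcon
    exact hnot (QQ_mono (by exact_mod_cast hcon) hMm)
  set n := M - (j + 1) with hn
  refine ⟨(sg ^ n)⁻¹ * h * sg ^ n, hn0 n (by omega) h hk hL, ?_, ?_⟩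
  · have := conj_mem_QQ hMm n
    apply QQ_mono _ this
    omega
  · intro hcon
    have := conj_mem_QQ' hcon n
    have e : sg ^ n * ((sg ^ n)⁻¹ * h * sg ^ n) * (sg ^ n)⁻¹ = h := by group
    rw [e] at this
    apply hMmin (j + n) (by omega)
    exact_mod_cast this

lemma iter (d : Dat L C0 K c δ) {R : ℝ} (hR : ∀ N : ℕ, ∃ h : Gp E, kk h = 0 ∧ L h ≤ R ∧ h ∉ QQ E N)
    (i : ℕ) : ∀ j : ℕ, ∃ g : Gp E, g ∈ QQ E (j + 1) ∧ L g ≤ i * K2 C0 K δ ∧
      ∀ n : ℤ, 0 ≤ n → (j : ℤ) + 1 - i ≤ n → act g (Sum.inl j) ≠ Sum.inl n := by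
  have hK2 := d.K2nn
  induction i with
  | zero =>
    intro j
    refine ⟨1, one_mem_QQ, by simp [d.len.one], ?_⟩
    intro n _ hn h
    rw [act_one] at h
    have := Sum.inl_injective h
    push_cast at hn
    linarith
  | succ i ih =>
    intro j
    obtain ⟨g, hg1, hg2, hg3⟩ := ih j
    by_cases hcase : ∃ j' : ℕ, act g (Sum.inl j) = Sum.inl (j' : ℤ)
    · obtain ⟨j', hj'⟩ := hcase
      have hlt : (j' : ℤ) < (j : ℤ) + 1 - i := by
        by_contra hcon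
        push Not at hcon
        exact hg3 j' (by positivity) hcon hj'
      obtain ⟨h, hh1, hh2, hh3⟩ := d.levels hR j'
      have hne : ∀ n : ℤ, (j' : ℤ) ≤ n → act h (Sum.inl (j' : ℤ)) ≠ Sum.inl n := by
        intro n hn heq
        rcases hn.eq_or_lt with h1 | h1
        · apply hh3
          intro m hm
          rcases hm.eq_or_lt with h2 | h2
          · rw [← h2, heq, ← h1]
          · exact hh2 m (by linarith)
        · have h2 := hh2 n (by linarith)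
          rw [← h2] at heq
          have := Sum.inl_injective ((act h).injective heq)
          linarith
      refine ⟨h * g, mul_mem_QQ (QQ_mono (by linarith) hh2) hg1, ?_, ?_⟩
      · have := d.len.mul h g
        push_cast
        linarith
      · intro n hn0 hn
        rw [act_mul, hj']
        apply hne
        push_cast at hn
        linarith
    · refine ⟨g, hg1, ?_, ?_⟩
      · push_cast
        linarith
      · intro n hn0 _ h
        apply hcase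
        exact ⟨n.toNat, by rw [h]; congr 1; omega⟩

lemma toneg (d : Dat L C0 K c δ) {R : ℝ} (hR : ∀ N : ℕ, ∃ h : Gp E, kk h = 0 ∧ L h ≤ R ∧ h ∉ QQ E N)
    (s : ℕ) : ∃ g : Gp E, g ∈ QQ E (s + 1) ∧ L g ≤ K2 C0 K δ ∧ act g (Sum.inl s) ∈ neg E := by
  obtain ⟨n, hn⟩ := d.contr ((s + 1 : ℕ) * K2 C0 K δ)
  obtain ⟨g, hg1, hg2, hg3⟩ := d.iter hR (s + 1) (n + s)
  refine ⟨(sg ^ n)⁻¹ * g * sg ^ n, ?_, hn n le_rfl g (kk_of_mem_QQ hg1) hg2, ?_⟩
  · have := conj_mem_QQ hg1 n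
    apply QQ_mono _ this
    push_cast
    linarith
  · intro m hm h
    rw [act_mul, act_mul, act_sg_pow_inl] at h
    have h2 : act g (Sum.inl ((s : ℤ) + n)) = Sum.inl (m + n) := by
      have h3 : act (sg ^ n) (Sum.inl m) = act g (Sum.inl ((s : ℤ) + n)) := by
        rw [← h, act_act_inv]
      rw [← h3, act_sg_pow_inl]
    have e : ((n + s : ℕ) : ℤ) = (s : ℤ) + n := by push_cast; ring
    apply hg3 (m + n) (by positivity) _ (by rw [e]; exact h2)
    push_cast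
    linarith

variable [Uncountable E]

lemma swap_bound [DecidableEq (ℤ ⊕ E)] (d : Dat L C0 K c δ) {R : ℝ}
    (hR : ∀ N : ℕ, ∃ h : Gp E, kk h = 0 ∧ L h ≤ R ∧ h ∉ QQ E N)
    (s : ℕ) {e' : ℤ ⊕ E} (he' : e' ∈ neg E) :
    L (sw (Sum.inl (s : ℤ)) e') ≤ 2 * K2 C0 K δ + 3 * C0 := by
  obtain ⟨g, hg1, hg2, hg3⟩ := d.toneg hR s
  set b := act g (Sum.inl (s : ℤ)) with hb
  -- choose c
  obtain ⟨c', hc'1, hc'2⟩ : ∃ c' ∈ neg E, c' ∉ (Set.range fun i : Fin (s + 1) =>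
      act g (Sum.inl ((i : ℕ) : ℤ))) :=
    (neg_infinite (E := E)).exists_notMem_finite (Set.finite_range _)
  have he : act g⁻¹ c' ∈ neg E := by
    intro n hn h
    have h1 : act g (Sum.inl n) = c' := by rw [← h, act_act_inv]
    by_cases hns : n ≤ s
    · apply hc'2
      refine ⟨⟨n.toNat, by omega⟩, ?_⟩
      simp only
      rw [← h1]
      congr 2
      omega
    · rw [hg1 n (by linarith)] at h1
      exact hc'1 n hn h1.symm
  have h1 : g⁻¹ * sw b c' * g⁻¹⁻¹ = sw (Sum.inl (s : ℤ)) (act g⁻¹ c') := by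
    rw [conj_sw, hb, act_inv_act]
  have h2 : L (sw (Sum.inl (s : ℤ)) (act g⁻¹ c')) ≤ 2 * K2 C0 K δ + C0 := by
    rw [← h1]
    have a1 := d.len.mul (g⁻¹ * sw b c') g⁻¹⁻¹
    have a2 := d.len.mul g⁻¹ (sw b c')
    have a3 := d.bd _ (sw_mem_QQ hg3 hc'1)
    rw [d.len.inv] at a1 a2
    rw [d.len.inv] at a1
    linarith
  have h3 : sw (act g⁻¹ c') e' * sw (Sum.inl (s : ℤ)) (act g⁻¹ c') * (sw (act g⁻¹ c') e')⁻¹ =
      sw (Sum.inl (s : ℤ)) e' := by
    rw [conj_sw]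
    congr 1
    · rw [act_sw]
      apply Equiv.swap_apply_of_ne_of_ne
      · exact fun h => he s (by positivity) h.symm
      · exact fun h => he' s (by positivity) h.symm
    · rw [act_sw, Equiv.swap_apply_left]
  rw [← h3]
  have a1 := d.len.mul (sw (act g⁻¹ c') e' * sw (Sum.inl (s : ℤ)) (act g⁻¹ c'))
    (sw (act g⁻¹ c') e')⁻¹
  have a2 := d.len.mul (sw (act g⁻¹ c') e') (sw (Sum.inl (s : ℤ)) (act g⁻¹ c'))
  have a3 := d.bd _ (sw_mem_QQ he he')
  rw [d.len.inv] at a1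
  linarith

omit [Uncountable E] in
lemma neg_or (x : ℤ ⊕ E) : x ∈ neg E ∨ ∃ s : ℕ, x = Sum.inl (s : ℤ) := by
  by_cases h : x ∈ neg E
  · exact Or.inl h
  · right
    have h' : ∃ n : ℤ, 0 ≤ n ∧ x = Sum.inl n := by
      by_contra hcon
      exact h fun n hn hx => hcon ⟨n, hn, hx⟩
    obtain ⟨n, hn, hx⟩ := h'
    exact ⟨n.toNat, by rw [hx]; congr 1; omega⟩

/-- uniform bound on all transpositions -/
lemma all_swaps [DecidableEq (ℤ ⊕ E)] (d : Dat L C0 K c δ) {R : ℝ}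
    (hR : ∀ N : ℕ, ∃ h : Gp E, kk h = 0 ∧ L h ≤ R ∧ h ∉ QQ E N) (a b : ℤ ⊕ E) :
    L (sw a b) ≤ 3 * (2 * K2 C0 K δ + 3 * C0) := by
  have hK2 := d.K2nn
  have hC0 := d.C0nn
  rcases neg_or a with ha | ⟨s, rfl⟩ <;> rcases neg_or b with hb | ⟨r, rfl⟩
  · have := d.bd _ (sw_mem_QQ ha hb)
    linarith
  · rw [sw_comm]
    have := d.swap_bound hR r ha
    linarith
  · have := d.swap_bound hR s hb
    linarith
  · by_cases hsr : s = r
    · subst hsr
      rw [sw_self, d.len.one]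
      positivity
    · obtain ⟨e, he⟩ := (neg_infinite (E := E)).nonempty
      have h1 := d.swap_bound hR s he
      have h2 := d.swap_bound hR r he
      have h3 : sw (Sum.inl (r : ℤ)) e * sw (Sum.inl (s : ℤ)) e * (sw (Sum.inl (r : ℤ)) e)⁻¹ =
          sw (Sum.inl (s : ℤ)) (Sum.inl (r : ℤ)) := by
        rw [conj_sw]
        congr 1
        · rw [act_sw]
          apply Equiv.swap_apply_of_ne_of_ne
          · intro h
            have := Sum.inl_injective h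
            omega
          · exact fun h => he s (by positivity) h.symm
        · rw [act_sw, Equiv.swap_apply_right]
      rw [← h3]
      have a1 := d.len.mul (sw (Sum.inl (r : ℤ)) e * sw (Sum.inl (s : ℤ)) e)
        (sw (Sum.inl (r : ℤ)) e)⁻¹
      have a2 := d.len.mul (sw (Sum.inl (r : ℤ)) e) (sw (Sum.inl (s : ℤ)) e)
      rw [d.len.inv] at a1
      linarith

/-- the whole kernel is bounded -/
lemma kernel_bounded (d : Dat L C0 K c δ) {R : ℝ}
    (hR : ∀ N : ℕ, ∃ h : Gp E, kk h = 0 ∧ L h ≤ R ∧ h ∉ QQ E N) (h : Gp E) (hk : kk h = 0) :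
    L h ≤ K2 C0 K δ + C0 := by
  classical
  -- uniformly bounded conjugates
  let F : Gp E → Prop := fun g => kk g = 0 ∧ ∃ R : ℝ, ∀ n : ℕ, L (sg ^ n * g * (sg ^ n)⁻¹) ≤ R
  have F1 : ∀ g, F g → L g ≤ K2 C0 K δ := by
    rintro g ⟨hg0, R', hg⟩
    obtain ⟨n, hn⟩ := d.contr R'
    have h1 := hn n le_rfl (sg ^ n * g * (sg ^ n)⁻¹) (by simp [hg0]) (hg n)
    have e : (sg ^ n)⁻¹ * (sg ^ n * g * (sg ^ n)⁻¹) * sg ^ n = g := by group
    rwa [e] at h1
  have Fone : F 1 := ⟨kk_one, 0, fun n => by simp [d.len.one]⟩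
  have Fmul : ∀ g g', F g → F g' → F (g * g') := by
    rintro g g' ⟨hg0, R1, hg⟩ ⟨hg0', R2, hg'⟩
    refine ⟨by simp [hg0, hg0'], R1 + R2, fun n => ?_⟩
    have e : sg ^ n * (g * g') * (sg ^ n)⁻¹ =
        (sg ^ n * g * (sg ^ n)⁻¹) * (sg ^ n * g' * (sg ^ n)⁻¹) := by group
    rw [e]
    have := d.len.mul (sg ^ n * g * (sg ^ n)⁻¹) (sg ^ n * g' * (sg ^ n)⁻¹)
    have := hg n
    have := hg' n
    linarith
  have Fsw : ∀ a b, F (sw a b) := by
    intro a b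
    refine ⟨kk_sw a b, 3 * (2 * K2 C0 K δ + 3 * C0), fun n => ?_⟩
    rw [conj_sw]
    exact d.all_swaps hR _ _
  have key : ∀ (N : ℕ) (h : Gp E), h ∈ QQ E N → ∃ w q : Gp E, F w ∧ q ∈ QQ E 0 ∧ h = w * q := by
    intro N
    induction N with
    | zero => intro h hh; exact ⟨1, h, Fone, by simpa using hh, by simp⟩
    | succ N ih =>
      intro h hh
      set y := act h (Sum.inl (N : ℤ)) with hy
      have h1 : sw y (Sum.inl (N : ℤ)) * h ∈ QQ E N := by
        intro n hn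
        rcases hn.eq_or_lt with h2 | h2
        · rw [← h2, act_mul, act_sw, ← hy, Equiv.swap_apply_left]
        · have h3 := hh n (by push_cast; linarith)
          rw [act_mul, h3, act_sw]
          apply Equiv.swap_apply_of_ne_of_ne
          · intro h4
            rw [← h3, hy] at h4
            have := Sum.inl_injective ((act h).injective h4)
            linarith
          · intro h4
            have := Sum.inl_injective h4
            linarith
      obtain ⟨w, q, hw, hq, heq⟩ := ih _ h1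
      refine ⟨sw y (Sum.inl (N : ℤ)) * w, q, Fmul _ _ (Fsw _ _) hw, hq, ?_⟩
      rw [mul_assoc, ← heq, ← mul_assoc, sw_mul_self, one_mul]
  obtain ⟨N, hN⟩ := exists_QQ hk
  obtain ⟨w, q, hw, hq, heq⟩ := key N h hN
  have h1 := F1 w hw
  have h2 := d.bd q hq
  have h3 := d.len.mul w q
  rw [heq]
  linarith

end Dat

end Pool.Agent.H5QP
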