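import Mathlib
import Pool.Agent.H5QP.Uniq

set_option autoImplicit false
open Pointwise

namespace Pool.Agent.H5QP

variable {E : Type}

lemma same_end {Y : Set (Gp E)} (hL : IsLen (fun g => (wlen Y g : ℝ))) {t : Gp E} {c K B : ℝ}
    (hc : 0 < c) (hlox : ∀ n : ℕ, c * n ≤ (wlen Y (t ^ n) : ℝ))
    (hadd : ∀ n m : ℕ, (wlen Y (t ^ n) : ℝ) + wlen Y (t ^ m) - K ≤ wlen Y (t ^ (n + m)))
    (hB : ∀ h : Gp E, kk h = 0 → (wlen Y h : ℝ) ≤ B) {g h : Gp E} {p p' : ℕ} (hp : 0 < p)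
    (hp' : 0 < p') (hg : kk g = p * kk t) (hh : kk h = p' * kk t) : SameEnd Y g h := by
  intro M
  obtain ⟨N, hN⟩ := exists_nat_gt ((M + K + 2 * B) / c)
  rw [div_lt_iff₀ hc] at hN
  have hK : 0 ≤ K := by
    have := hadd 0 0
    have h1 : (wlen Y (1 : Gp E) : ℝ) = 0 := hL.one
    rw [pow_zero, h1] at this
    linarith
  refine ⟨N, fun n m hn hm => ?_⟩
  set a := n * p with ha
  set b := m * p' with hb
  have h1 : (wlen Y ((t ^ a)⁻¹ * g ^ n) : ℝ) ≤ B := by
    apply hB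
    simp [hg, ha]; ring
  have h2 : (wlen Y ((t ^ b)⁻¹ * h ^ m) : ℝ) ≤ B := by
    apply hB
    simp [hh, hb]; ring
  have h3 := hL.mul (g ^ n) ((t ^ a)⁻¹ * g ^ n)⁻¹
  have e3 : g ^ n * ((t ^ a)⁻¹ * g ^ n)⁻¹ = t ^ a := by group
  have h4 := hL.mul (h ^ m) ((t ^ b)⁻¹ * h ^ m)⁻¹
  have e4 : h ^ m * ((t ^ b)⁻¹ * h ^ m)⁻¹ = t ^ b := by group
  rw [e3, hL.inv] at h3
  rw [e4, hL.inv] at h4
  have h5 := hL.mul (((t ^ a)⁻¹ * g ^ n)⁻¹ * ((t ^ a)⁻¹ * t ^ b)) ((t ^ b)⁻¹ * h ^ m)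
  have e5 : (((t ^ a)⁻¹ * g ^ n)⁻¹ * ((t ^ a)⁻¹ * t ^ b)) * ((t ^ b)⁻¹ * h ^ m) =
      (g ^ n)⁻¹ * h ^ m := by group
  have h6 := hL.mul ((t ^ a)⁻¹ * g ^ n)⁻¹ ((t ^ a)⁻¹ * t ^ b)
  rw [hL.inv] at h6
  rw [e5] at h5
  have key : ∃ x : ℕ, N ≤ x ∧ (wlen Y ((t ^ a)⁻¹ * t ^ b) : ℝ) ≤
      wlen Y (t ^ a) + wlen Y (t ^ b) - 2 * wlen Y (t ^ x) + K := by
    have hpa : N ≤ a := hn.trans (Nat.le_mul_of_pos_right n hp)
    have hpb : N ≤ b := hm.trans (Nat.le_mul_of_pos_right m hp')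
    rcases le_total a b with hab | hab
    · refine ⟨a, hpa, ?_⟩
      have e7 : (t ^ a)⁻¹ * t ^ b = t ^ (b - a) := by
        rw [inv_mul_eq_iff_eq_mul, ← pow_add]; congr 1; omega
      have h8 := hadd a (b - a)
      rw [show a + (b - a) = b by omega] at h8
      rw [e7]
      linarith
    · refine ⟨b, hpb, ?_⟩
      have e7 : (t ^ a)⁻¹ * t ^ b = (t ^ (a - b))⁻¹ := by
        rw [inv_mul_eq_iff_eq_mul, eq_mul_inv_iff_mul_eq, ← pow_add]; congr 1; omega
      have h8 := hadd b (a - b)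
      rw [show b + (a - b) = a by omega] at h8
      have h9 := hL.inv (t ^ (a - b))
      rw [e7, h9]
      linarith
  obtain ⟨x, hx, hkey⟩ := key
  have h10 := hlox x
  have h11 : (N : ℝ) * c ≤ c * x := by
    rw [mul_comm]
    apply mul_le_mul_of_nonneg_left _ hc.le
    exact_mod_cast hx
  unfold gpr
  linarith

theorem uniq [Uncountable E] (Y : Set (Gp E)) (hY : QPar Y) :
    (∃ C : ℕ, ∀ y ∈ Y, wlen (XX E) y ≤ C) ∧ (∃ C : ℕ, ∀ x ∈ XX E, wlen Y x ≤ C) := by
  obtain ⟨hcl, ⟨δ, hδ⟩, ⟨g, h, hg, hh, hne⟩, _⟩ := hY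
  have hL := isLen_wlen hcl
  have h4 := fourPt_of_gpr hcl hδ
  have hδ0 := delta_nonneg hδ
  obtain ⟨C0', hC0'⟩ := bound_QQ hL
  set C0 := max C0' 0 with hC0
  have hC0nn : 0 ≤ C0 := le_max_right _ _
  have hbd : ∀ q ∈ QQ E 0, (wlen Y q : ℝ) ≤ C0 := fun q hq => (hC0' q hq).trans (le_max_left _ _)
  have hloxkk : ∀ u : Gp E, Lox Y u → kk u ≠ 0 := by
    rintro u ⟨c, hc, hu⟩
    exact lox_kk' hL hbd hc hu
  obtain ⟨c, hc, hlox⟩ : ∃ c : ℝ, 0 < c ∧ ∀ n : ℕ, c * n ≤ (wlen Y ((sg : Gp E) ^ n) : ℝ) := by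
    rcases lt_or_gt_of_ne (hloxkk g hg) with hk | hk
    · obtain ⟨c, hc, hg'⟩ := lox_inv hcl hg
      exact sg_lox hL hbd hc hg' (by simpa using hk)
    · obtain ⟨c, hc, hg'⟩ := hg
      exact sg_lox hL hbd hc hg' hk
  obtain ⟨K, hK, hadd⟩ := hL.almost_additive h4 hδ0 hc hlox
  have d : Dat (fun g : Gp E => (wlen Y g : ℝ)) C0 K c δ :=
    ⟨hL, h4, hδ0, hC0nn, hbd, hc, hlox, hK, hadd⟩
  constructor
  · -- bound of Y in the tree
    set κ : ℝ := (1 + K + C0) / c with hκ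
    have hκ' : ∀ y ∈ Y, (|kk y| : ℝ) ≤ κ := by
      intro y hy
      have h1 := d.lip y
      have h2 : (wlen Y y : ℝ) ≤ 1 := by exact_mod_cast wlen_mem hy
      rw [hκ, le_div_iff₀ hc]
      push_cast at h1
      linarith
    by_cases hR : ∀ N : ℕ, ∃ h : Gp E, kk h = 0 ∧
        (wlen Y h : ℝ) ≤ 1 + κ * wlen Y (sg : Gp E) ∧ h ∉ QQ E N
    · exfalso
      have hB := d.kernel_bounded hR
      have hlox' : ∀ n : ℕ, c * n ≤ (wlen Y ((sg : Gp E)⁻¹ ^ n) : ℝ) := by
        intro n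
        rw [inv_pow, wlen_inv hcl]
        exact hlox n
      have hadd' : ∀ n m : ℕ, (wlen Y ((sg : Gp E)⁻¹ ^ n) : ℝ) + wlen Y ((sg : Gp E)⁻¹ ^ m) - K ≤
          wlen Y ((sg : Gp E)⁻¹ ^ (n + m)) := by
        intro n m
        rw [inv_pow, inv_pow, inv_pow, wlen_inv hcl, wlen_inv hcl, wlen_inv hcl]
        exact hadd n m
      have pos : ∀ u v : Gp E, 0 < kk u → 0 < kk v → SameEnd Y u v := by
        intro u v hu hv
        exact same_end hL hc hlox hadd hB (p := (kk u).toNat) (p' := (kk v).toNat)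
          (by omega) (by omega) (by rw [kk_sg]; omega) (by rw [kk_sg]; omega)
      have nega : ∀ u v : Gp E, kk u < 0 → kk v < 0 → SameEnd Y u v := by
        intro u v hu hv
        exact same_end hL hc hlox' hadd' hB (p := (-kk u).toNat) (p' := (-kk v).toNat)
          (by omega) (by omega) (by rw [kk_inv, kk_sg]; omega) (by rw [kk_inv, kk_sg]; omega)
      apply hne
      rcases lt_or_gt_of_ne (hloxkk g hg) with h1 | h1 <;>
        rcases lt_or_gt_of_ne (hloxkk h hh) with h2 | h2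
      · left
        exact ⟨nega _ _ h1 h2, pos _ _ (by simpa using h1) (by simpa using h2)⟩
      · right
        exact ⟨nega _ _ h1 (by simpa using h2), pos _ _ (by simpa using h1) h2⟩
      · right
        exact ⟨pos _ _ h1 (by simpa using h2), nega _ _ (by simpa using h1) h2⟩
      · left
        exact ⟨pos _ _ h1 h2, nega _ _ (by simpa using h1) (by simpa using h2)⟩
    · push Not at hR
      obtain ⟨N, hN⟩ := hR
      refine ⟨2 * N + ⌈κ⌉₊ + 1, fun y hy => ?_⟩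
      have hk := hκ' y hy
      have h1 : kk (y * (sg : Gp E) ^ (-kk y)) = 0 := by simp
      have hpw : ∀ m : ℤ, (wlen Y ((sg : Gp E) ^ m) : ℝ) ≤ |(m : ℝ)| * wlen Y (sg : Gp E) := by
        intro m
        cases m with
        | ofNat m =>
          have := hL.pow_le (sg : Gp E) m
          simpa using this
        | negSucc m =>
          have := hL.pow_le (sg : Gp E) (m + 1)
          rw [zpow_negSucc, wlen_inv hcl]
          have e : |((Int.negSucc m : ℤ) : ℝ)| = ((m + 1 : ℕ) : ℝ) := by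
            rw [Int.cast_negSucc, abs_neg]
            exact abs_of_nonneg (by positivity)
          rw [e]
          exact this
      have h2 : (wlen Y (y * (sg : Gp E) ^ (-kk y)) : ℝ) ≤ 1 + κ * wlen Y (sg : Gp E) := by
        have a1 := hL.mul y ((sg : Gp E) ^ (-kk y))
        have a2 : (wlen Y y : ℝ) ≤ 1 := by exact_mod_cast wlen_mem hy
        have a3 := hpw (-kk y)
        have a4 : |((-kk y : ℤ) : ℝ)| ≤ κ := by
          push_cast
          rw [abs_neg]
          exact hk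
        have a5 : |((-kk y : ℤ) : ℝ)| * (wlen Y (sg : Gp E) : ℝ) ≤ κ * wlen Y (sg : Gp E) :=
          mul_le_mul_of_nonneg_right a4 (by positivity)
        linarith
      have h3 := hN _ h1 h2
      have h5 := DD_of_QQ h3
      have h6 := DD_mul (y * (sg : Gp E) ^ (-kk y)) ((sg : Gp E) ^ (kk y))
      have e6 : y * (sg : Gp E) ^ (-kk y) * (sg : Gp E) ^ (kk y) = y := by group
      rw [e6] at h6
      have h7 : DD ((sg : Gp E) ^ (kk y)) ≤ |kk y| := by
        have gen : ∀ m : ℤ, DD ((sg : Gp E) ^ m) ≤ |m| := by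
          intro m
          cases m with
          | ofNat m =>
            have := DD_pow_sg (E := E) m
            simpa using this
          | negSucc m =>
            have := DD_pow_sg (E := E) (m + 1)
            rw [zpow_negSucc, DD_inv]
            have e : |Int.negSucc m| = ((m + 1 : ℕ) : ℤ) := by
              rw [Int.negSucc_eq, abs_neg]
              push_cast
              exact abs_of_nonneg (by positivity)
            rw [e]
            exact this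
        exact gen _
      have h8 := wlen_le_DD y
      have h9 : |kk y| ≤ (⌈κ⌉₊ : ℤ) := by
        have : ((|kk y| : ℤ) : ℝ) ≤ ((⌈κ⌉₊ : ℤ) : ℝ) := by
          push_cast
          exact hk.trans (Nat.le_ceil κ)
        exact_mod_cast this
      have : (wlen (XX E) y : ℤ) ≤ 2 * N + ⌈κ⌉₊ + 1 := by linarith
      exact_mod_cast this
  · refine ⟨⌈C0⌉₊ + wlen Y (sg : Gp E), ?_⟩
    rintro x (hx | hx)
    · have h1 := hbd x hx
      have h2 : (wlen Y x : ℝ) ≤ (⌈C0⌉₊ : ℝ) := h1.trans (Nat.le_ceil _)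
      have h3 : wlen Y x ≤ ⌈C0⌉₊ := by exact_mod_cast h2
      omega
    · rw [Set.mem_singleton_iff] at hx
      subst hx
      omega

end Pool.Agent.H5QP
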